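import Mathlib

set_option autoImplicit false

/-! # Finite samples whose one-dimensional marginals are nearly the same in all directions -/

namespace Pool.Agent.N479.SK

open Finset MeasureTheory

section measure

variable {ι : Type} [Fintype ι]

/-- the annulus -/
def ann (ι : Type) [Fintype ι] : Set (EuclideanSpace ℝ ι) := {v | 1 / 2 ≤ ‖v‖ ∧ ‖v‖ ≤ 1}

lemma ann_meas : MeasurableSet (ann ι) := by
  have h1 : IsClosed (ann ι) := by
    have : ann ι = (norm : EuclideanSpace ℝ ι → ℝ) ⁻¹' (Set.Icc (1 / 2) 1) := rfl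
    rw [this]
    exact isClosed_Icc.preimage continuous_norm
  exact h1.measurableSet

lemma ann_fin : volume (ann ι) ≠ ⊤ := by
  have h1 : ann ι ⊆ Metric.closedBall 0 1 := by
    intro v hv
    rw [mem_closedBall_zero_iff]
    exact hv.2
  exact ((measure_mono h1).trans_lt (isCompact_closedBall _ _).measure_lt_top).ne

lemma ann_pos [Nonempty ι] : 0 < volume (ann ι) := by
  classical
  have h1 : {v : EuclideanSpace ℝ ι | 1 / 2 < ‖v‖ ∧ ‖v‖ < 1} ⊆ ann ι := by
    intro v hv
    exact ⟨hv.1.le, hv.2.le⟩
  refine lt_of_lt_of_le ?_ (measure_mono h1)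
  have h2 : IsOpen {v : EuclideanSpace ℝ ι | 1 / 2 < ‖v‖ ∧ ‖v‖ < 1} := by
    have : {v : EuclideanSpace ℝ ι | 1 / 2 < ‖v‖ ∧ ‖v‖ < 1}
        = (norm : EuclideanSpace ℝ ι → ℝ) ⁻¹' (Set.Ioo (1 / 2) 1) := rfl
    rw [this]
    exact isOpen_Ioo.preimage continuous_norm
  refine h2.measure_pos _ ⟨EuclideanSpace.single (Classical.arbitrary ι) (3 / 4 : ℝ), ?_⟩
  simp only [Set.mem_setOf_eq, EuclideanSpace.norm_single]
  norm_num [abs_of_pos]

/-- the law of `⟪v, y⟫`, `v` in the annulus, depends only on the norm of `y` -/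
lemma law_eq (y y' : EuclideanSpace ℝ ι) (h : ‖y‖ = ‖y'‖) (S : Set ℝ) :
    volume (ann ι ∩ {v | inner ℝ v y ∈ S}) = volume (ann ι ∩ {v | inner ℝ v y' ∈ S}) := by
  obtain ⟨L, hL⟩ : ∃ L : EuclideanSpace ℝ ι ≃ₗᵢ[ℝ] EuclideanSpace ℝ ι, L y = y' :=
    ⟨_, Submodule.reflection_sub h⟩
  have h1 := (L.measurePreserving).measure_preimage_emb
    (L.toHomeomorph.measurableEmbedding) (ann ι ∩ {v | inner ℝ v y' ∈ S})
  rw [← h1]
  congr 1
  ext v
  simp only [Set.mem_inter_iff, Set.mem_setOf_eq, Set.mem_preimage, ann]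
  rw [L.norm_map, ← hL, L.inner_map_map]

theorem equi [Nonempty ι] {X : Type} [Finite X] {B : ℕ} (a : X → EuclideanSpace ℝ ι)
    (ha : ∀ p p', ‖a p‖ = ‖a p'‖) (b : ℝ → Fin (B + 1)) (hb : Measurable b) :
    ∃ D : ℕ, ∀ N : ℕ, ∃ (I : Type) (_ : Fintype I) (v : I → EuclideanSpace ℝ ι),
      N ≤ Fintype.card I ∧ (∀ i, 1 / 2 ≤ ‖v i‖ ∧ ‖v i‖ ≤ 1) ∧
      ∀ p p' l, (univ.filter fun i => b (inner ℝ (v i) (a p)) = l).card ≤
        (univ.filter fun i => b (inner ℝ (v i) (a p')) = l).card + D := by
  classical
  have := Fintype.ofFinite X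
  let K := X → Fin (B + 1)
  let code : EuclideanSpace ℝ ι → K := fun v p => b (inner ℝ v (a p))
  have hcode : Measurable code := by
    refine measurable_pi_lambda _ fun p => hb.comp ?_
    exact (continuous_id.inner continuous_const).measurable
  let ν : Measure (EuclideanSpace ℝ ι) := volume.restrict (ann ι)
  have hν : IsFiniteMeasure ν := ⟨by
    rw [Measure.restrict_apply_univ]
    exact ann_fin.lt_top⟩
  let P : K → ℝ := fun k => ν.real (code ⁻¹' {k})
  have hP : ∀ k, 0 ≤ P k := fun k => measureReal_nonneg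
  -- marginals
  have hmarg : ∀ p l, ∑ k ∈ univ.filter (fun k : K => k p = l), P k =
      (volume (ann ι ∩ {v | inner ℝ v (a p) ∈ b ⁻¹' {l}})).toReal := by
    intro p l
    simp only [P]
    rw [sum_measureReal_preimage_singleton _ fun y _ => hcode (measurableSet_singleton y)]
    have e : code ⁻¹' ↑(univ.filter (fun k : K => k p = l)) = {v | inner ℝ v (a p) ∈ b ⁻¹' {l}} := by
      ext v
      simp [code]
    rw [e, measureReal_def]
    have hm : MeasurableSet {v : EuclideanSpace ℝ ι | inner ℝ v (a p) ∈ b ⁻¹' {l}} :=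
      ((continuous_id.inner continuous_const).measurable) (hb (measurableSet_singleton l))
    rw [Measure.restrict_apply hm, Set.inter_comm]
  have hq : ∀ p p' l, ∑ k ∈ univ.filter (fun k : K => k p = l), P k =
      ∑ k ∈ univ.filter (fun k : K => k p' = l), P k := by
    intro p p' l
    rw [hmarg, hmarg, law_eq _ _ (ha p p')]
  have htot : ∑ k, P k = (volume (ann ι)).toReal := by
    have := sum_measureReal_preimage_singleton (μ := ν) (univ : Finset K) (f := code)
      (fun y _ => hcode (measurableSet_singleton y))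
    simp only [P]
    rw [this]
    simp [ν, measureReal_def]
  have hpos : 0 < (volume (ann ι)).toReal := ENNReal.toReal_pos ann_pos.ne' ann_fin
  -- representatives
  have hrep : ∀ k : K, ∃ v : EuclideanSpace ℝ ι, v ∈ ann ι ∧ (0 < P k → code v = k) := by
    intro k
    by_cases h : 0 < P k
    · have h1 : (ann ι ∩ code ⁻¹' {k}).Nonempty := by
        by_contra hne
        rw [Set.not_nonempty_iff_eq_empty] at hne
        have h2 : P k = 0 := by
          simp only [P, ν, measureReal_def]
          rw [Measure.restrict_apply (hcode (measurableSet_singleton k)), Set.inter_comm, hne]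
          simp
        linarith
      obtain ⟨v, hv, hv'⟩ := h1
      exact ⟨v, hv, fun _ => hv'⟩
    · obtain ⟨v, hv⟩ := nonempty_of_measure_ne_zero (ann_pos (ι := ι)).ne'
      exact ⟨v, hv, fun h' => absurd h' h⟩
  choose rep hrep1 hrep2 using hrep
  refine ⟨Fintype.card K, fun N => ?_⟩
  obtain ⟨M, hM⟩ := exists_nat_gt (((N : ℝ) + Fintype.card K) / (volume (ann ι)).toReal)
  rw [div_lt_iff₀ hpos] at hM
  let n : K → ℕ := fun k => ⌊(M : ℝ) * P k⌋₊
  have hn1 : ∀ k, (n k : ℝ) ≤ M * P k := fun k => Nat.floor_le (by have := hP k; positivity)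
  have hn2 : ∀ k, M * P k - 1 ≤ (n k : ℝ) := fun k => (Nat.sub_one_lt_floor _).le
  have hn3 : ∀ k, 0 < n k → 0 < P k := by
    intro k hk
    rcases (hP k).lt_or_eq with h | h
    · exact h
    · have := hn1 k
      rw [← h, mul_zero] at this
      have : (0 : ℝ) < n k := by exact_mod_cast hk
      linarith
  let I := Σ k : K, Fin (n k)
  have hcount : ∀ p l, ((univ.filter fun i : I => b (inner ℝ (rep i.1) (a p)) = l).card : ℝ) =
      ∑ k ∈ univ.filter (fun k : K => k p = l), (n k : ℝ) := by
    intro p l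
    rw [Finset.card_filter]
    push_cast
    rw [Fintype.sum_sigma, Finset.sum_filter]
    refine Finset.sum_congr rfl fun k _ => ?_
    rcases Nat.eq_zero_or_pos (n k) with h0 | h0
    · have : IsEmpty (Fin (n k)) := by rw [h0]; infer_instance
      simp [h0]
    · have h1 := hrep2 k (hn3 k h0)
      have h2 : b (inner ℝ (rep k) (a p)) = k p := congrFun h1 p
      simp only [h2]
      rw [Finset.sum_const, Finset.card_univ, Fintype.card_fin]
      split_ifs <;> simp
  refine ⟨I, inferInstance, fun i => rep i.1, ?_, fun i => hrep1 i.1, ?_⟩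
  · have h1 : ((Fintype.card I : ℕ) : ℝ) = ∑ k, (n k : ℝ) := by
      simp [I, Fintype.card_sigma]
    have h2 : ∑ k, ((M : ℝ) * P k - 1) ≤ ∑ k, (n k : ℝ) := Finset.sum_le_sum fun k _ => hn2 k
    rw [Finset.sum_sub_distrib, ← Finset.mul_sum, htot] at h2
    simp only [Finset.sum_const, Finset.card_univ, nsmul_eq_mul, mul_one] at h2
    have h3 : (N : ℝ) ≤ Fintype.card I := by
      rw [h1]
      linarith
    exact_mod_cast h3
  · intro p p' l
    have h1 := hcount p l
    have h2 := hcount p' l
    have h3 : ∑ k ∈ univ.filter (fun k : K => k p = l), (n k : ℝ) ≤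
        M * ∑ k ∈ univ.filter (fun k : K => k p = l), P k := by
      rw [Finset.mul_sum]
      exact Finset.sum_le_sum fun k _ => hn1 k
    have h4 : M * ∑ k ∈ univ.filter (fun k : K => k p' = l), P k - Fintype.card K ≤
        ∑ k ∈ univ.filter (fun k : K => k p' = l), (n k : ℝ) := by
      have h5 : ∑ k ∈ univ.filter (fun k : K => k p' = l), ((M : ℝ) * P k - 1) ≤
          ∑ k ∈ univ.filter (fun k : K => k p' = l), (n k : ℝ) :=
        Finset.sum_le_sum fun k _ => hn2 k
      rw [Finset.sum_sub_distrib, ← Finset.mul_sum] at h5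
      simp only [Finset.sum_const, nsmul_eq_mul, mul_one] at h5
      have h6 : ((univ.filter (fun k : K => k p' = l)).card : ℝ) ≤ Fintype.card K := by
        exact_mod_cast Finset.card_le_univ _
      linarith
    rw [hq p p' l] at h3
    have h7 : ((univ.filter fun i : I => b (inner ℝ (rep i.1) (a p)) = l).card : ℝ) ≤
        ((univ.filter fun i : I => b (inner ℝ (rep i.1) (a p')) = l).card : ℝ)
          + Fintype.card K := by
      rw [h1, h2]
      linarith
    exact_mod_cast h7

end measure

/-- choosing the same numbers of elements with the same labels -/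
theorem targets {Y J : Type} [Fintype J] {B : ℕ} (lab : Y → J → Fin (B + 1)) (D : ℕ)
    (h : ∀ p p' l, (univ.filter fun j => lab p j = l).card ≤
      (univ.filter fun j => lab p' j = l).card + D) :
    ∃ t : Y → J → Option (Fin (B + 1)), (∀ p j l, t p j = some l → lab p j = l) ∧
      (∀ (ψ : Option (Fin (B + 1)) → ℝ) (p p' : Y), ∑ j, ψ (t p j) = ∑ j, ψ (t p' j)) ∧
      ∀ p, (univ.filter fun j => t p j = none).card ≤ (B + 1) * D := by
  classical
  rcases isEmpty_or_nonempty Y with hY | ⟨⟨y₀⟩⟩
  · exact ⟨fun p => (hY.false p).elim, fun p => (hY.false p).elim,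
      fun _ p => (hY.false p).elim, fun p => (hY.false p).elim⟩
  let m : Fin (B + 1) → ℕ := fun l => (univ.filter fun j => lab y₀ j = l).card - D
  have hm : ∀ p l, m l ≤ (univ.filter fun j => lab p j = l).card := by
    intro p l
    have := h y₀ p l
    simp only [m]
    omega
  choose S hS hSc using fun p l => Finset.exists_subset_card_eq (hm p l)
  let t : Y → J → Option (Fin (B + 1)) := fun p j =>
    if j ∈ S p (lab p j) then some (lab p j) else none
  have key : ∀ (ψ : Option (Fin (B + 1)) → ℝ) (p : Y), ∑ j, ψ (t p j) =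
      Fintype.card J * ψ none + ∑ l, (m l : ℝ) * (ψ (some l) - ψ none) := by
    intro ψ p
    have h1 : ∀ j, ψ (t p j) = ψ none +
        (if j ∈ S p (lab p j) then ψ (some (lab p j)) - ψ none else 0) := by
      intro j
      simp only [t]
      split_ifs <;> ring
    simp_rw [h1]
    rw [Finset.sum_add_distrib, Finset.sum_const, Finset.card_univ, nsmul_eq_mul]
    congr 1
    rw [← Finset.sum_fiberwise univ (fun j => lab p j)]
    refine Finset.sum_congr rfl fun l _ => ?_
    have h2 : ∀ j ∈ univ.filter (fun j => lab p j = l),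
        (if j ∈ S p (lab p j) then ψ (some (lab p j)) - ψ none else 0) =
        (if j ∈ S p l then ψ (some l) - ψ none else 0) := by
      intro j hj
      rw [(Finset.mem_filter.mp hj).2]
    rw [Finset.sum_congr rfl h2, Finset.sum_ite_mem, Finset.inter_eq_right.mpr (hS p l),
      Finset.sum_const, hSc, nsmul_eq_mul]
  refine ⟨t, ?_, fun ψ p p' => by rw [key, key], fun p => ?_⟩
  · intro p j l hj
    simp only [t] at hj
    split_ifs at hj with h1
    · exact Option.some.inj hj
  · have h1 := key (fun o => if o = none then 1 else 0) p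
    simp only [reduceCtorEq, if_false, if_true, zero_sub, mul_one, mul_neg, Finset.sum_neg_distrib] at h1
    rw [Finset.sum_boole] at h1
    have h2 : (Fintype.card J : ℝ) = ∑ l, ((univ.filter fun j => lab y₀ j = l).card : ℝ) := by
      have := Finset.card_eq_sum_card_fiberwise (s := (univ : Finset J)) (t := (univ : Finset (Fin (B + 1))))
        (f := fun j => lab y₀ j) (fun _ _ => Finset.mem_univ _)
      rw [Finset.card_univ] at this
      exact_mod_cast this
    have h3 : ∀ l, ((univ.filter fun j => lab y₀ j = l).card : ℝ) ≤ m l + D := by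
      intro l
      have : (univ.filter fun j => lab y₀ j = l).card ≤ m l + D := by
        simp only [m]; omega
      exact_mod_cast this
    have h4 : (Fintype.card J : ℝ) ≤ ∑ l, (m l : ℝ) + (B + 1) * D := by
      rw [h2]
      refine (Finset.sum_le_sum fun l _ => h3 l).trans ?_
      rw [Finset.sum_add_distrib]
      simp
    have h5 : ((univ.filter fun j => t p j = none).card : ℝ) ≤ (B + 1) * D := by
      rw [h1]
      linarith
    exact_mod_cast h5

end Pool.Agent.N479.SK
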