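import Pool.Agent.N479.SK.Good

set_option autoImplicit false

/-! # The gadget: six columns with two states -/

namespace Pool.Agent.N479.SK

open Finset Pool.Agent.N479.ER

/-- the point `(1 - 2 l) a₀ + l a₁ + l a₂` -/
def ctr {ι : Type} (l : ℝ) (a₀ a₁ a₂ : ι → ℝ) : ι → ℝ :=
  fun x => (1 - 2 * l) * a₀ x + l * a₁ x + l * a₂ x

lemma sq_ctr_pt {ι : Type} [Fintype ι] (l : ℝ) (a₀ a₁ a₂ b : ι → ℝ) :
    sq (ctr l a₀ a₁ a₂) b = (1 - 2 * l) * sq a₀ b + l * sq a₁ b + l * sq a₂ b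
      - ((1 - 2 * l) * l * sq a₀ a₁ + (1 - 2 * l) * l * sq a₀ a₂ + l * l * sq a₁ a₂) := by
  unfold ER.sq ctr
  simp only [Finset.mul_sum, ← Finset.sum_add_distrib, ← Finset.sum_sub_distrib]
  refine Finset.sum_congr rfl fun x _ => ?_
  ring

/-- the expression of the squared distance of two such points -/
def QQ (l : ℝ) (D : Fin 3 → Fin 3 → ℝ) (I J : ℝ) : ℝ :=
  (1 - 2 * l) * ((1 - 2 * l) * D 0 0 + l * D 0 1 + l * D 0 2)
    + l * ((1 - 2 * l) * D 1 0 + l * D 1 1 + l * D 1 2)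
    + l * ((1 - 2 * l) * D 2 0 + l * D 2 1 + l * D 2 2) - I - J

/-- the inner part -/
def II (l : ℝ) (d₀₁ d₀₂ d₁₂ : ℝ) : ℝ :=
  (1 - 2 * l) * l * d₀₁ + (1 - 2 * l) * l * d₀₂ + l * l * d₁₂

lemma sq_ctr_ctr {ι : Type} [Fintype ι] (l : ℝ) (a b : Fin 3 → ι → ℝ) :
    sq (ctr l (a 0) (a 1) (a 2)) (ctr l (b 0) (b 1) (b 2)) =
      QQ l (fun i j => sq (a i) (b j)) (II l (sq (a 0) (a 1)) (sq (a 0) (a 2)) (sq (a 1) (a 2)))
        (II l (sq (b 0) (b 1)) (sq (b 0) (b 2)) (sq (b 1) (b 2))) := by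
  rw [sq_ctr_pt, sq_comm (a 0) (ctr _ _ _ _), sq_comm (a 1) (ctr _ _ _ _),
    sq_comm (a 2) (ctr _ _ _ _), sq_ctr_pt, sq_ctr_pt, sq_ctr_pt]
  unfold QQ II
  rw [sq_comm (b 0) (a 0), sq_comm (b 1) (a 0), sq_comm (b 2) (a 0), sq_comm (b 0) (a 1),
    sq_comm (b 1) (a 1), sq_comm (b 2) (a 1), sq_comm (b 0) (a 2), sq_comm (b 1) (a 2),
    sq_comm (b 2) (a 2)]
  ring

/-- the neutral state -/
noncomputable def gN (l x h k : ℝ) : Fin 3 → Fin 6 → ℝ :=
  ![![x, x + h, x + k, x, x + h / l, x + k / l],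
    ![x, x + h, x + k, x + h / l, x + k / l, x],
    ![x, x + h, x + k, x + k / l, x, x + h / l]]

/-- the active state -/
noncomputable def gA (l x h k : ℝ) : Fin 3 → Fin 6 → ℝ :=
  ![![x, x, x, x + h + k, x + h / l, x + k / l],
    ![x, x + h / l, x, x + h + k, x + k / l, x],
    ![x, x, x + k / l, x + h + k, x, x + h / l]]

lemma gad_Z (l x h k : ℝ) (hl : l ≠ 0) (q : Fin 6) :
    (1 - 2 * l) * gA l x h k 0 q + l * gA l x h k 1 q + l * gA l x h k 2 q =
      (1 - 2 * l) * gN l x h k 0 q + l * gN l x h k 1 q + l * gN l x h k 2 q := by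
  fin_cases q <;> simp [gA, gN] <;> field_simp <;> ring

lemma gN_law (l x h k : ℝ) (φ : ℝ → ℝ) (i : Fin 3) :
    ∑ q, φ (gN l x h k i q) =
      2 * φ x + φ (x + h) + φ (x + k) + φ (x + h / l) + φ (x + k / l) := by
  fin_cases i <;> simp [gN, Fin.sum_univ_six] <;> ring

lemma gA_law (l x h k : ℝ) (φ : ℝ → ℝ) (i : Fin 3) :
    ∑ q, φ (gA l x h k i q) =
      2 * φ x + φ (x + h) + φ (x + k) + φ (x + h / l) + φ (x + k / l)
        + (φ (x + h + k) - φ (x + h) - φ (x + k) + φ x) := by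
  fin_cases i <;> simp [gA, Fin.sum_univ_six] <;> ring

/-- the metric cost of a gadget -/
noncomputable def ge (l h k : ℝ) : ℝ := 2 * (h / l) ^ 2 + 2 * (k / l) ^ 2 - 2 * (h / l) * (k / l)

lemma gN_m (l x h k : ℝ) :
    ∑ q, (gN l x h k 0 q - gN l x h k 1 q) ^ 2 = ge l h k ∧
    ∑ q, (gN l x h k 0 q - gN l x h k 2 q) ^ 2 = ge l h k ∧
    ∑ q, (gN l x h k 1 q - gN l x h k 2 q) ^ 2 = ge l h k := by
  refine ⟨?_, ?_, ?_⟩ <;> simp [gN, Fin.sum_univ_six, ge] <;> ring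

lemma gA_m (l x h k : ℝ) :
    ∑ q, (gA l x h k 0 q - gA l x h k 1 q) ^ 2 = ge l h k ∧
    ∑ q, (gA l x h k 0 q - gA l x h k 2 q) ^ 2 = ge l h k ∧
    ∑ q, (gA l x h k 1 q - gA l x h k 2 q) ^ 2 = ge l h k + 2 * (h / l) * (k / l) := by
  refine ⟨?_, ?_, ?_⟩ <;> simp [gA, Fin.sum_univ_six, ge] <;> ring

lemma ge_nonneg (l h k : ℝ) : 0 ≤ ge l h k := by
  unfold ge
  nlinarith [sq_nonneg (h / l - k / l), sq_nonneg (h / l), sq_nonneg (k / l)]

lemma ge_le (l h k : ℝ) : ge l h k ≤ 3 / l ^ 2 * (h ^ 2 + k ^ 2) := by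
  unfold ge
  have e : 3 / l ^ 2 * (h ^ 2 + k ^ 2) = 3 * (h / l) ^ 2 + 3 * (k / l) ^ 2 := by ring
  rw [e]
  nlinarith [sq_nonneg (h / l + k / l)]

/-! ### the assembled rows -/

section asm

variable {Y J U : Type} [Fintype J] [Fintype U] [DecidableEq Y]

/-- the rows -/
noncomputable def row (l : ℝ) (z : Y → J → ℝ) (ow : U → Y) (x h k : U → ℝ) (b : Y × Fin 3) :
    (J × Bool) ⊕ (U × Fin 6) → ℝ :=
  Sum.elim (fun s => if s.2 then z b.1 s.1 else - z b.1 s.1)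
    (fun s => if ow s.1 = b.1 then gA l (x s.1) (h s.1) (k s.1) b.2 s.2
      else gN l (x s.1) (h s.1) (k s.1) b.2 s.2)

lemma row_law (l : ℝ) (z : Y → J → ℝ) (ow : U → Y) (x h k : U → ℝ) (φ : ℝ → ℝ) (p : Y)
    (i : Fin 3) : ∑ ω, φ (row l z ow x h k (p, i) ω) =
      ∑ j, (φ (z p j) + φ (- z p j)) +
      (∑ u, (2 * φ (x u) + φ (x u + h u) + φ (x u + k u) + φ (x u + h u / l) + φ (x u + k u / l))
       + ∑ u, (if ow u = p then (φ (x u + h u + k u) - φ (x u + h u) - φ (x u + k u) + φ (x u))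
          else 0)) := by
  rw [Fintype.sum_sum_type, Fintype.sum_prod_type, Fintype.sum_prod_type]
  congr 1
  · refine Finset.sum_congr rfl fun j _ => ?_
    simp [row]
  · rw [← Finset.sum_add_distrib]
    refine Finset.sum_congr rfl fun u _ => ?_
    simp only [row, Sum.elim_inr]
    split_ifs with hu
    · rw [gA_law]
    · rw [gN_law, add_zero]

lemma row_m (l : ℝ) (z : Y → J → ℝ) (ow : U → Y) (x h k : U → ℝ) (p : Y) :
    sq (row l z ow x h k (p, 0)) (row l z ow x h k (p, 1)) = ∑ u, ge l (h u) (k u) ∧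
    sq (row l z ow x h k (p, 0)) (row l z ow x h k (p, 2)) = ∑ u, ge l (h u) (k u) ∧
    sq (row l z ow x h k (p, 1)) (row l z ow x h k (p, 2)) = ∑ u, ge l (h u) (k u) +
      ∑ u, (if ow u = p then 2 * (h u / l) * (k u / l) else 0) := by
  unfold ER.sq
  simp only [Fintype.sum_sum_type, Fintype.sum_prod_type]
  refine ⟨?_, ?_, ?_⟩
  · have h1 : ∀ j : J, ∑ b : Bool, (row l z ow x h k (p, 0) (Sum.inl (j, b))
        - row l z ow x h k (p, 1) (Sum.inl (j, b))) ^ 2 = 0 := fun j => by simp [row]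
    rw [Finset.sum_congr rfl fun j _ => h1 j, Finset.sum_const_zero, zero_add]
    refine Finset.sum_congr rfl fun u _ => ?_
    simp only [row, Sum.elim_inr]
    split_ifs with hu
    · exact (gA_m l (x u) (h u) (k u)).1
    · exact (gN_m l (x u) (h u) (k u)).1
  · have h1 : ∀ j : J, ∑ b : Bool, (row l z ow x h k (p, 0) (Sum.inl (j, b))
        - row l z ow x h k (p, 2) (Sum.inl (j, b))) ^ 2 = 0 := fun j => by simp [row]
    rw [Finset.sum_congr rfl fun j _ => h1 j, Finset.sum_const_zero, zero_add]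
    refine Finset.sum_congr rfl fun u _ => ?_
    simp only [row, Sum.elim_inr]
    split_ifs with hu
    · exact (gA_m l (x u) (h u) (k u)).2.1
    · exact (gN_m l (x u) (h u) (k u)).2.1
  · have h1 : ∀ j : J, ∑ b : Bool, (row l z ow x h k (p, 1) (Sum.inl (j, b))
        - row l z ow x h k (p, 2) (Sum.inl (j, b))) ^ 2 = 0 := fun j => by simp [row]
    rw [Finset.sum_congr rfl fun j _ => h1 j, Finset.sum_const_zero, zero_add,
      ← Finset.sum_add_distrib]
    refine Finset.sum_congr rfl fun u _ => ?_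
    simp only [row, Sum.elim_inr]
    split_ifs with hu
    · exact (gA_m l (x u) (h u) (k u)).2.2
    · rw [add_zero]
      exact (gN_m l (x u) (h u) (k u)).2.2

lemma row_Z (l : ℝ) (hl : l ≠ 0) (z : Y → J → ℝ) (ow : U → Y) (x h k : U → ℝ) (p p' : Y) :
    sq (ctr l (row l z ow x h k (p, 0)) (row l z ow x h k (p, 1)) (row l z ow x h k (p, 2)))
      (ctr l (row l z ow x h k (p', 0)) (row l z ow x h k (p', 1)) (row l z ow x h k (p', 2))) =
      2 * ∑ j, (z p j - z p' j) ^ 2 := by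
  unfold ER.sq
  rw [Fintype.sum_sum_type, Fintype.sum_prod_type, Fintype.sum_prod_type]
  have h2 : ∀ (u : U) (q : Fin 6), (ctr l (row l z ow x h k (p, 0)) (row l z ow x h k (p, 1))
      (row l z ow x h k (p, 2)) (Sum.inr (u, q)) - ctr l (row l z ow x h k (p', 0))
      (row l z ow x h k (p', 1)) (row l z ow x h k (p', 2)) (Sum.inr (u, q))) ^ 2 = 0 := by
    intro u q
    have key : ∀ p, ctr l (row l z ow x h k (p, 0)) (row l z ow x h k (p, 1))
      (row l z ow x h k (p, 2)) (Sum.inr (u, q)) = (1 - 2 * l) * gN l (x u) (h u) (k u) 0 q +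
        l * gN l (x u) (h u) (k u) 1 q + l * gN l (x u) (h u) (k u) 2 q := by
      intro p
      simp only [ctr, row, Sum.elim_inr]
      split_ifs with hu
      · exact gad_Z l _ _ _ hl q
      · rfl
    rw [key, key, sub_self]
    norm_num
  rw [Finset.sum_congr rfl fun u _ => Finset.sum_congr rfl fun q _ => h2 u q]
  simp only [Finset.sum_const_zero, add_zero]
  rw [Finset.mul_sum]
  refine Finset.sum_congr rfl fun j _ => ?_
  simp only [ctr, row, Sum.elim_inl, Fintype.sum_bool, if_true, Bool.false_eq_true, if_false]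
  ring

end asm

end Pool.Agent.N479.SK
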