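import Pool.Agent.H228R4.Blocks
import Pool.Agent.N479.ER.Basic

set_option autoImplicit false

/-! # Families of points on a sphere found monochromatic in every finite colouring -/

namespace Pool.Agent.N479.SK

open Finset Pool.Agent.N479.ER

/-- `D` is the squared-distance matrix of a family of points of equal norm which, for every finite
palette `κ`, is found monochromatic in every `κ`-colouring of some finite set of points. -/
def GoodE {B : Type} (D : B → B → ℝ) : Prop :=
  ∀ (κ : Type) [Finite κ], ∃ (ι : Type) (_ : Fintype ι) (W : Finset (ι → ℝ)),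
    ∀ c : (ι → ℝ) → κ, ∃ f : B → ι → ℝ, (∀ b, f b ∈ W) ∧
      (∀ b b', sq (f b) (f b') = D b b') ∧ (∀ b b', sq (f b) 0 = sq (f b') 0) ∧
      ∀ b b', c (f b) = c (f b')

theorem GoodE.congr {B : Type} {D D' : B → B → ℝ} (h : GoodE D) (e : ∀ b b', D b b' = D' b b') :
    GoodE D' := by
  have : D = D' := by funext b b'; exact e b b'
  exact this ▸ h

lemma sq_elim_zero {ι κ : Type} [Fintype ι] [Fintype κ] (u : ι → ℝ) (v : κ → ℝ) :
    sq (Sum.elim u v) 0 = sq u 0 + sq v 0 := by
  have : (0 : ι ⊕ κ → ℝ) = Sum.elim (0 : ι → ℝ) (0 : κ → ℝ) := by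
    funext x; cases x <;> rfl
  rw [this, sq_sumElim]

lemma sq_smul_zero {ι : Type} [Fintype ι] (t : ℝ) (u : ι → ℝ) :
    sq (t • u) 0 = t ^ 2 * sq u 0 := by
  have := sq_smul t u 0
  rwa [smul_zero] at this

theorem GoodE.add {B : Type} {D₁ D₂ : B → B → ℝ} (h₁ : GoodE D₁) (h₂ : GoodE D₂) :
    GoodE (fun b b' => D₁ b b' + D₂ b b') := by
  intro κ _
  obtain ⟨ι₂, i₂, W₂, H₂⟩ := h₂ κ
  obtain ⟨ι₁, i₁, W₁, H₁⟩ := h₁ (↥W₂ → κ)
  classical
  refine ⟨ι₁ ⊕ ι₂, inferInstance, (W₁ ×ˢ W₂).image (fun p => Sum.elim p.1 p.2), fun c => ?_⟩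
  obtain ⟨f₁, m₁, d₁, n₁, c₁⟩ := H₁ (fun u w => c (Sum.elim u w))
  rcases isEmpty_or_nonempty B with hB | ⟨⟨b₀⟩⟩
  · exact ⟨fun b => (hB.false b).elim, fun b => (hB.false b).elim, fun b => (hB.false b).elim,
      fun b => (hB.false b).elim, fun b => (hB.false b).elim⟩
  · obtain ⟨f₂, m₂, d₂, n₂, c₂⟩ := H₂ (fun w => c (Sum.elim (f₁ b₀) w))
    refine ⟨fun b => Sum.elim (f₁ b) (f₂ b), fun b => ?_, fun b b' => ?_, fun b b' => ?_, ?_⟩
    · exact Finset.mem_image.mpr ⟨(f₁ b, f₂ b), Finset.mem_product.mpr ⟨m₁ b, m₂ b⟩, rfl⟩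
    · rw [sq_sumElim, d₁, d₂]
    · rw [sq_elim_zero, sq_elim_zero, n₁ b b', n₂ b b']
    · have key : ∀ b, c (Sum.elim (f₁ b) (f₂ b)) = c (Sum.elim (f₁ b₀) (f₂ b₀)) := by
        intro b
        have e1 := congrFun (c₁ b b₀) ⟨f₂ b, m₂ b⟩
        simp only at e1
        rw [e1]
        exact c₂ b b₀
      intro b b'
      simp only [key b, key b']

theorem GoodE.smul {B : Type} {D : B → B → ℝ} (h : GoodE D) {t : ℝ} (ht : 0 ≤ t) :
    GoodE (fun b b' => t * D b b') := by
  intro κ _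
  obtain ⟨ι, i, W, H⟩ := h κ
  classical
  refine ⟨ι, i, W.image (fun w => √t • w), fun c => ?_⟩
  obtain ⟨f, m, d, n, e⟩ := H (fun u => c (√t • u))
  refine ⟨fun b => √t • f b, fun b => Finset.mem_image_of_mem _ (m b), fun b b' => ?_,
    fun b b' => ?_, fun b b' => e b b'⟩
  · rw [sq_smul, d, Real.sq_sqrt ht]
  · rw [sq_smul_zero, sq_smul_zero, n b b']

/-- cut metrics -/
theorem GoodE.cut {B : Type} (S : B → Prop) [DecidablePred S] {t : ℝ} (ht : 0 ≤ t) :
    GoodE (fun b b' => if (S b ↔ S b') then 0 else t) := by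
  intro κ _
  classical
  have := Fintype.ofFinite κ
  obtain ⟨r, h0⟩ : ∃ r : ℝ, r ^ 2 = t / 2 := ⟨√(t / 2), Real.sq_sqrt (by positivity)⟩
  let v : Option κ → Option κ → ℝ := fun i => Pi.single i r
  have hv : ∀ i j, i ≠ j → sq (v i) (v j) = t := by
    intro i j hij
    have h1 : ∀ x, (v i x - v j x) ^ 2 = (if x = i then t / 2 else 0) + (if x = j then t / 2 else 0) := by
      intro x
      by_cases hi : x = i
      · subst hi
        have : x ≠ j := hij
        simp [v, this, h0]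
      · by_cases hj : x = j
        · subst hj
          simp [v, hi, h0]
        · simp [v, hi, hj]
    unfold ER.sq
    rw [Finset.sum_congr rfl fun x _ => h1 x, Finset.sum_add_distrib]
    simp
  have hn : ∀ i, sq (v i) 0 = t / 2 := by
    intro i
    unfold ER.sq
    rw [Finset.sum_eq_single i]
    · simp [v, h0]
    · intro b _ hb
      simp [v, hb]
    · simp
  refine ⟨Option κ, inferInstance, Finset.univ.image v, fun c => ?_⟩
  obtain ⟨i, j, hij, e⟩ := Fintype.exists_ne_map_eq_of_card_lt (fun i : Option κ => c (v i))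
    (by simp)
  refine ⟨fun b => if S b then v i else v j, fun b => ?_, fun b b' => ?_, fun b b' => ?_,
    fun b b' => ?_⟩
  · dsimp only
    split_ifs
    · exact Finset.mem_image_of_mem _ (Finset.mem_univ _)
    · exact Finset.mem_image_of_mem _ (Finset.mem_univ _)
  · by_cases h : S b <;> by_cases h' : S b' <;> simp [h, h', sq_self, hv _ _ hij, hv _ _ hij.symm]
  · by_cases h : S b <;> by_cases h' : S b' <;> simp [h, h', hn]
  · have e' : c (v i) = c (v j) := e
    by_cases h : S b <;> by_cases h' : S b' <;> simp [h, h', e']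

theorem GoodE.zero {B : Type} : GoodE (fun _ _ : B => (0 : ℝ)) :=
  (GoodE.cut (fun _ : B => True) (le_refl (0 : ℝ))).congr (by simp)

/-- the carrier can be taken on a sphere -/
theorem GoodE.sphere {B : Type} {D : B → B → ℝ} (h : GoodE D) (κ : Type) [Finite κ] :
    ∃ (ι : Type) (_ : Fintype ι) (_ : Nonempty ι) (W : Finset (ι → ℝ)) (R : ℝ),
      (∀ w ∈ W, sq w 0 = R) ∧
      ∀ c : (ι → ℝ) → κ, ∃ f : B → ι → ℝ, (∀ b, f b ∈ W) ∧
        (∀ b b', sq (f b) (f b') = D b b') ∧ ∀ b b', c (f b) = c (f b') := by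
  classical
  obtain ⟨ι, i, W, H⟩ := h κ
  let R : ℝ := ∑ w ∈ W, sq w 0
  have hR : ∀ w ∈ W, sq w 0 ≤ R := fun w hw =>
    Finset.single_le_sum (f := fun w : ι → ℝ => sq w 0)
      (fun w _ => Finset.sum_nonneg fun x _ => sq_nonneg _) hw
  let L : (ι → ℝ) → (ι ⊕ Unit → ℝ) := fun w => Sum.elim w (fun _ => √(R - sq w 0))
  refine ⟨ι ⊕ Unit, inferInstance, inferInstance, W.image L, R, ?_, fun c => ?_⟩
  · intro w hw
    obtain ⟨u, hu, rfl⟩ := Finset.mem_image.mp hw
    simp only [L]
    rw [sq_elim_zero]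
    have : sq (fun _ : Unit => √(R - sq u 0)) 0 = R - sq u 0 := by
      have h1 : sq (fun _ : Unit => √(R - sq u 0)) 0 = (√(R - sq u 0)) ^ 2 := by
        simp [ER.sq]
      rw [h1, Real.sq_sqrt (by linarith [hR u hu])]
    rw [this]
    ring
  · obtain ⟨f, m, d, n, e⟩ := H (fun w => c (L w))
    refine ⟨fun b => L (f b), fun b => Finset.mem_image_of_mem _ (m b), fun b b' => ?_, e⟩
    simp only [L]
    rw [sq_sumElim, d, n b b', sq_self, add_zero]

/-- real valued counting lemma for patterns -/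
lemma sum_pattern {N J A : Type} [Fintype N] [Fintype J] (t : N → J ⊕ A) (d : ℕ)
    (ht : ∀ p, H228R4.cnt t p = d) (g : J ⊕ A → ℝ) (hg : ∀ a, g (Sum.inr a) = 0) :
    ∑ i, g (t i) = d * ∑ j, g (Sum.inl j) := by
  classical
  have h1 : ∀ i, g (t i) = ∑ j, (H228R4.ind (t i) j : ℝ) * g (Sum.inl j) := by
    intro i
    cases t i with
    | inl j0 =>
      rw [Finset.sum_eq_single j0]
      · rw [H228R4.ind_inl]; simp
      · intro b _ hb
        rw [H228R4.ind_inl_ne (Ne.symm hb)]; simp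
      · intro hh; exact absurd (Finset.mem_univ _) hh
    | inr a => simp [hg, H228R4.ind_inr]
  simp_rw [h1]
  rw [Finset.sum_comm, Finset.mul_sum]
  refine Finset.sum_congr rfl fun j _ => ?_
  rw [← Finset.sum_mul, ← ht j]
  unfold H228R4.cnt
  push_cast
  rfl

/-- families of rearrangements of one word (block sets theorem) -/
theorem GoodE.words {B Ω : Type} [Finite B] [Fintype Ω] (F : B → Ω → ℝ)
    (hF : ∀ (φ : ℝ → ℝ) (b b' : B), ∑ ω, φ (F b ω) = ∑ ω, φ (F b' ω)) :
    GoodE (fun b b' => ∑ ω, (F b ω - F b' ω) ^ 2) := by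
  classical
  have := Fintype.ofFinite B
  rcases isEmpty_or_nonempty Ω with hΩ | hΩ
  · exact GoodE.zero.congr (by simp)
  rcases isEmpty_or_nonempty B with hB | hB
  · exact GoodE.zero.congr (fun b => (hB.false b).elim)
  -- the alphabet
  let V : Finset ℝ := (Finset.univ : Finset (B × Ω)).image (fun p => F p.1 p.2)
  have hV : ∀ b ω, F b ω ∈ V := fun b ω =>
    Finset.mem_image.mpr ⟨(b, ω), Finset.mem_univ _, rfl⟩
  let m := Fintype.card ↥V
  let eV : ↥V ≃ Fin m := Fintype.equivFin ↥V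
  have hm : 0 < m := Fintype.card_pos_iff.mpr ⟨⟨_, hV hB.some hΩ.some⟩⟩
  let val : Fin m → ℝ := fun a => (eV.symm a : ℝ)
  have hval : Function.Injective val := fun a b h => eV.symm.injective (Subtype.ext h)
  obtain ⟨l, hl⟩ : ∃ l, Fintype.card Ω = l + 1 :=
    ⟨Fintype.card Ω - 1, by have := Fintype.card_pos (α := Ω); omega⟩
  let eΩ : Fin (l + 1) ≃ Ω := (Fintype.equivFinOfCardEq hl).symm
  let G : B → Fin (l + 1) → Fin m := fun b p => eV ⟨F b (eΩ p), hV b _⟩
  have hG : ∀ b p, val (G b p) = F b (eΩ p) := fun b p => by simp [val, G]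
  have hms : ∀ b b', H228R4.ms (G b) = H228R4.ms (G b') := by
    intro b b'
    unfold H228R4.ms
    ext a
    rw [Multiset.count_map, Multiset.count_map]
    have h1 : ∀ b, ((Multiset.card (Multiset.filter (fun p => a = G b p)
        (Finset.univ : Finset (Fin (l + 1))).val) : ℕ) : ℝ) =
        ∑ ω, (if F b ω = val a then (1 : ℝ) else 0) := by
      intro b
      rw [← Equiv.sum_comp eΩ, Finset.sum_boole]
      norm_cast
      rw [← Finset.filter_val, Finset.card_val]
      congr 1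
      ext p
      simp only [Finset.mem_filter, Finset.mem_univ, true_and, ← hG]
      exact ⟨fun h => by rw [h], fun h => (hval h).symm⟩
    have h2 := hF (fun x => if x = val a then (1 : ℝ) else 0) b b'
    have h3 : ((Multiset.card (Multiset.filter (fun p => a = G b p)
        (Finset.univ : Finset (Fin (l + 1))).val) : ℕ) : ℝ) =
        ((Multiset.card (Multiset.filter (fun p => a = G b' p)
        (Finset.univ : Finset (Fin (l + 1))).val) : ℕ) : ℝ) := by
      rw [h1, h1]
      exact h2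
    exact_mod_cast h3
  obtain ⟨d, hd, hbl⟩ := H228R4.blocks_aux m l hm
  have hd' : (0 : ℝ) < d := by exact_mod_cast hd
  intro κ _
  have := Fintype.ofFinite κ
  obtain ⟨n, hn⟩ := hbl (Fintype.card κ)
  let r : ℝ := √(1 / d)
  have hr : r ^ 2 = 1 / d := Real.sq_sqrt (by positivity)
  let v : (Fin n → Fin m) → Fin n → ℝ := fun w i => r * val (w i)
  refine ⟨Fin n, inferInstance, Finset.univ.image v, fun c => ?_⟩
  obtain ⟨t, ht, hc⟩ := hn (fun w => Fintype.equivFin κ (c (v w)))
  refine ⟨fun b => v (H228R4.ev t (G b)), fun b => Finset.mem_image_of_mem _ (Finset.mem_univ _),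
    fun b b' => ?_, fun b b' => ?_, fun b b' => ?_⟩
  · have h1 := sum_pattern t d ht (fun z => (r * val (Sum.elim (G b) id z)
      - r * val (Sum.elim (G b') id z)) ^ 2) (by intro a; simp)
    have h2 : sq (v (H228R4.ev t (G b))) (v (H228R4.ev t (G b'))) =
        ∑ i, (r * val (Sum.elim (G b) id (t i)) - r * val (Sum.elim (G b') id (t i))) ^ 2 := rfl
    rw [h2, h1]
    simp only [Sum.elim_inl, hG]
    rw [← Equiv.sum_comp eΩ, Finset.mul_sum]
    refine Finset.sum_congr rfl fun p _ => ?_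
    have : (r * F b (eΩ p) - r * F b' (eΩ p)) ^ 2 = r ^ 2 * (F b (eΩ p) - F b' (eΩ p)) ^ 2 := by
      ring
    rw [this, hr]
    field_simp
  · have key : ∀ b, sq (v (H228R4.ev t (G b))) 0 =
        (∑ i, (Sum.elim (fun _ => 0) (fun a => (r * val a) ^ 2) (t i) : ℝ)) +
          ∑ ω, (F b ω) ^ 2 := by
      intro b
      have h1 := sum_pattern t d ht (fun z => (r * val (Sum.elim (G b) id z)) ^ 2 -
        (Sum.elim (fun _ => 0) (fun a => (r * val a) ^ 2) z : ℝ)) (by intro a; simp)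
      rw [Finset.sum_sub_distrib] at h1
      have h2 : sq (v (H228R4.ev t (G b))) 0 =
        ∑ i, (r * val (Sum.elim (G b) id (t i))) ^ 2 := by
        unfold ER.sq
        refine Finset.sum_congr rfl fun i _ => ?_
        simp [v, H228R4.ev]
      rw [h2]
      have h3 : (d : ℝ) * ∑ j : Fin (l + 1), ((r * val (Sum.elim (G b) id (Sum.inl j))) ^ 2 -
          (Sum.elim (fun _ => 0) (fun a => (r * val a) ^ 2) (Sum.inl j : Fin (l + 1) ⊕ Fin m) : ℝ))
          = ∑ ω, (F b ω) ^ 2 := by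
        simp only [Sum.elim_inl, hG, sub_zero]
        rw [← Equiv.sum_comp eΩ, Finset.mul_sum]
        refine Finset.sum_congr rfl fun p _ => ?_
        rw [mul_pow, hr]
        field_simp
      rw [h3] at h1
      linarith
    rw [key, key, hF (fun x => x ^ 2) b b']
  · exact (Fintype.equivFin κ).injective (hc _ _ (hms b b'))

end Pool.Agent.N479.SK
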