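import Pool.Agent.N479.SK.Main

set_option autoImplicit false

/-! # All kites are Ramsey, in terms of squared distances; extending isometries -/

namespace Pool.Agent.N479.SK

open Finset Pool.Agent.N479.ER

/-- kites with `a < 0` -/
theorem kite_neg {κ : Type} [Finite κ] [Nonempty κ] (a : ℝ) (h1 : -1 < a) (h2 : a < 0) :
    ∃ (ι : Type) (_ : Fintype ι), ∀ c : (ι → ℝ) → κ, ∃ (f : Fin 3 → ι → ℝ) (z : ι → ℝ),
      sq (f 0) (f 1) = 2 * (1 - a) ∧ sq (f 0) (f 2) = 2 * (1 - a) ∧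
      sq (f 1) (f 2) = 4 * (1 - a ^ 2) ∧ sq z (f 0) = 4 ∧ sq z (f 1) = 2 * (1 + a) ∧
      sq z (f 2) = 2 * (1 + a) ∧ ∀ i, c (f i) = c z := by
  have h3 : 0 < 1 - a := by linarith
  have h3' : 1 - a ≠ 0 := h3.ne'
  have hII : II (1 / (1 - a)) (2 * (1 - a)) (2 * (1 - a)) (4 * (1 - a ^ 2)) = 0 := by
    unfold II
    field_simp
    ring
  obtain ⟨ι, i, n, W, R, -, -, H⟩ := main (κ := κ) (1 / (1 - a)) (by positivity) (2 * (1 - a))
    (4 * (1 - a ^ 2)) (by nlinarith) (by nlinarith) hII (Nat.card κ)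
  refine ⟨ι, i, fun c => ?_⟩
  obtain ⟨f, -, -, e1, e2, e3, hc⟩ := H c (by
    refine (Set.ncard_le_ncard (Set.subset_univ _) (Set.toFinite _)).trans ?_
    rw [Set.ncard_univ])
  refine ⟨f, _, e1, e2, e3, ?_, ?_, ?_, hc⟩
  · rw [sq_ctr_pt, sq_self, sq_comm (f 1) (f 0), sq_comm (f 2) (f 0), e1, e2, e3]
    field_simp
    ring
  · rw [sq_ctr_pt, sq_self, sq_comm (f 2) (f 1), e1, e2, e3]
    field_simp
    ring
  · rw [sq_ctr_pt, sq_self, e1, e2, e3]
    field_simp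
    ring

/-- the square -/
theorem kite_zero {κ : Type} [Finite κ] :
    ∃ (ι : Type) (_ : Fintype ι), ∀ c : (ι → ℝ) → κ, ∃ (f : Fin 4 → ι → ℝ),
      sq (f 0) (f 1) = 4 ∧ sq (f 0) (f 2) = 2 ∧ sq (f 0) (f 3) = 2 ∧ sq (f 1) (f 2) = 2 ∧
      sq (f 1) (f 3) = 2 ∧ sq (f 2) (f 3) = 4 ∧ ∀ i j, c (f i) = c (f j) := by
  have h := (GoodE.cut (fun i : Fin 4 => i = 0 ∨ i = 2) (by norm_num : (0 : ℝ) ≤ 2)).add
    (GoodE.cut (fun i : Fin 4 => i = 0 ∨ i = 3) (by norm_num : (0 : ℝ) ≤ 2))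
  obtain ⟨ι, i, W, H⟩ := h κ
  refine ⟨ι, i, fun c => ?_⟩
  obtain ⟨f, -, d, -, e⟩ := H c
  refine ⟨f, ?_, ?_, ?_, ?_, ?_, ?_, e⟩ <;> rw [d] <;> simp <;> norm_num

/-- isometries between finite families of points extend -/
theorem ext_iso {P : Type} [Finite P] [Nonempty P] {n : ℕ} (x y : P → EuclideanSpace ℝ (Fin n))
    (h : ∀ p p', dist (x p) (x p') = dist (y p) (y p')) :
    ∃ φ : EuclideanSpace ℝ (Fin n) ≃ᵢ EuclideanSpace ℝ (Fin n), ∀ p, φ (x p) = y p := by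
  classical
  have := Fintype.ofFinite P
  obtain ⟨p₀⟩ := ‹Nonempty P›
  let u : P → EuclideanSpace ℝ (Fin n) := fun p => x p - x p₀
  let v : P → EuclideanSpace ℝ (Fin n) := fun p => y p - y p₀
  have hin : ∀ p p', inner ℝ (u p) (u p') = inner ℝ (v p) (v p') := by
    intro p p'
    have h1 := norm_sub_sq_real (u p) (u p')
    have h2 := norm_sub_sq_real (v p) (v p')
    have e1 : u p - u p' = x p - x p' := by simp only [u]; abel
    have e2 : v p - v p' = y p - y p' := by simp only [v]; abel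
    have e3 : ‖u p‖ = ‖v p‖ := by
      simp only [u, v]
      rw [← dist_eq_norm, ← dist_eq_norm, h]
    have e4 : ‖u p'‖ = ‖v p'‖ := by
      simp only [u, v]
      rw [← dist_eq_norm, ← dist_eq_norm, h]
    have e5 : ‖x p - x p'‖ = ‖y p - y p'‖ := by
      rw [← dist_eq_norm, ← dist_eq_norm, h]
    rw [e1, e3, e4, e5] at h1
    rw [e2] at h2
    linarith
  let φ := Fintype.linearCombination ℝ u
  let ψ := Fintype.linearCombination ℝ v
  have hnorm : ∀ α, ‖φ α‖ = ‖ψ α‖ := by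
    intro α
    have h1 : ‖φ α‖ ^ 2 = ‖ψ α‖ ^ 2 := by
      rw [← real_inner_self_eq_norm_sq, ← real_inner_self_eq_norm_sq]
      simp only [φ, ψ, Fintype.linearCombination_apply, sum_inner, inner_sum, inner_smul_left,
        inner_smul_right, hin]
    exact (sq_eq_sq₀ (norm_nonneg _) (norm_nonneg _)).mp h1
  have hker : LinearMap.ker φ ≤ LinearMap.ker ψ := by
    intro α hα
    rw [LinearMap.mem_ker] at hα ⊢
    have := hnorm α
    rw [hα, norm_zero] at this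
    exact norm_eq_zero.mp this.symm
  let L₀ : LinearMap.range φ →ₗ[ℝ] EuclideanSpace ℝ (Fin n) :=
    ((LinearMap.ker φ).liftQ ψ hker) ∘ₗ (φ.quotKerEquivRange.symm : _ →ₗ[ℝ] _)
  have hL₀ : ∀ α (h : φ α ∈ LinearMap.range φ), L₀ ⟨φ α, h⟩ = ψ α := by
    intro α h
    simp only [L₀, LinearMap.comp_apply, LinearEquiv.coe_coe]
    rw [LinearMap.quotKerEquivRange_symm_apply_image]
    simp
  let L₁ : LinearMap.range φ →ₗᵢ[ℝ] EuclideanSpace ℝ (Fin n) := ⟨L₀, by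
    rintro ⟨z, hz⟩
    obtain ⟨α, rfl⟩ := LinearMap.mem_range.mp hz
    exact (congrArg norm (hL₀ α hz)).trans (hnorm α).symm⟩
  let L := L₁.extend
  have hL : ∀ p, L (u p) = v p := by
    intro p
    have h1 : φ (Pi.single p 1) = u p := by simp [φ]
    have h2 : ψ (Pi.single p 1) = v p := by simp [ψ]
    rw [← h1, ← h2]
    have h3 := L₁.extend_apply ⟨φ (Pi.single p 1), ⟨_, rfl⟩⟩
    exact h3.trans (hL₀ _ _)
  let L' := L.toLinearIsometryEquiv rfl
  refine ⟨((IsometryEquiv.addRight (- x p₀)).trans L'.toIsometryEquiv).trans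
    (IsometryEquiv.addRight (y p₀)), fun p => ?_⟩
  have h1 : L' (x p + - x p₀) = v p := by
    rw [← sub_eq_add_neg]
    exact hL p
  change L' (x p + - x p₀) + y p₀ = y p
  rw [h1]
  simp only [v]
  abel

/-- the inclusion of `ℝ^m` in `ℝ^n` by the first `m` coordinates -/
noncomputable def emb {m : ℕ} (n : ℕ) (x : EuclideanSpace ℝ (Fin m)) : EuclideanSpace ℝ (Fin n) :=
  WithLp.toLp 2 (fun j : Fin n => if h : (j : ℕ) < m then x ⟨j, h⟩ else 0)

lemma dist_sq' {n : ℕ} (p q : EuclideanSpace ℝ (Fin n)) :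
    dist p q ^ 2 = sq p.ofLp q.ofLp := by
  rw [EuclideanSpace.dist_sq_eq]
  simp [ER.sq, Real.dist_eq, sq_abs]

lemma sq_emb {m n : ℕ} (h : m ≤ n) (x y : EuclideanSpace ℝ (Fin m)) :
    sq (emb n x).ofLp (emb n y).ofLp = sq x.ofLp y.ofLp := by
  unfold ER.sq emb
  obtain ⟨d, rfl⟩ := Nat.exists_eq_add_of_le h
  rw [Fin.sum_univ_add]
  have h1 : ∀ j : Fin d, ((if h : ((Fin.natAdd m j : Fin (m + d)) : ℕ) < m then
      x ⟨(Fin.natAdd m j : Fin (m + d)), h⟩ else 0) -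
      (if h : ((Fin.natAdd m j : Fin (m + d)) : ℕ) < m then
      y ⟨(Fin.natAdd m j : Fin (m + d)), h⟩ else 0)) ^ 2 = 0 := by
    intro j
    have : ¬ ((Fin.natAdd m j : Fin (m + d)) : ℕ) < m := by simp
    rw [dif_neg this, dif_neg this]
    simp
  rw [Finset.sum_congr (g := fun _ => (0 : ℝ)) rfl fun j _ => h1 j, Finset.sum_const_zero, add_zero]
  refine Finset.sum_congr rfl fun j _ => ?_
  have : ((Fin.castAdd d j : Fin (m + d)) : ℕ) < m := by simp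
  simp

/-- from families of points to sets -/
theorem ramsey_of {m k : ℕ} {P : Type} [Finite P] [Nonempty P] (x : P → EuclideanSpace ℝ (Fin m))
    (H : ∃ (ι : Type) (_ : Fintype ι), ∀ c : (ι → ℝ) → Fin k, ∃ f : P → ι → ℝ,
      (∀ p p', sq (f p) (f p') = sq (x p).ofLp (x p').ofLp) ∧ ∀ p p', c (f p) = c (f p')) :
    ∃ n : ℕ, m ≤ n ∧ ∀ c : EuclideanSpace ℝ (Fin n) → Fin k,
      ∃ φ : EuclideanSpace ℝ (Fin n) ≃ᵢ EuclideanSpace ℝ (Fin n),
        ∀ p p', c (φ (emb n (x p))) = c (φ (emb n (x p'))) := by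
  classical
  obtain ⟨ι, i, H⟩ := H
  let n := Fintype.card (Fin m ⊕ ι)
  have hn : m ≤ n := by simp [n]
  let e : Fin m ⊕ ι ≃ Fin n := Fintype.equivFin _
  let g : (ι → ℝ) → EuclideanSpace ℝ (Fin n) := fun v =>
    WithLp.toLp 2 ((Sum.elim (0 : Fin m → ℝ) v) ∘ e.symm)
  have hg : ∀ u v, sq (g u).ofLp (g v).ofLp = sq u v := by
    intro u v
    have h1 : sq (g u).ofLp (g v).ofLp = sq (Sum.elim (0 : Fin m → ℝ) u) (Sum.elim (0 : Fin m → ℝ) v) := by
      unfold ER.sq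
      exact Equiv.sum_comp e.symm
        (fun z => (Sum.elim (0 : Fin m → ℝ) u z - Sum.elim (0 : Fin m → ℝ) v z) ^ 2)
    rw [h1, sq_sumElim, sq_self, zero_add]
  refine ⟨n, hn, fun c => ?_⟩
  obtain ⟨f, df, cf⟩ := H (fun v => c (g v))
  obtain ⟨φ, hφ⟩ := ext_iso (fun p => emb n (x p)) (fun p => g (f p)) (fun p p' => by
    have : dist (emb n (x p)) (emb n (x p')) ^ 2 = dist (g (f p)) (g (f p')) ^ 2 := by
      rw [dist_sq', dist_sq', sq_emb hn, hg, df]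
    exact (sq_eq_sq₀ dist_nonneg dist_nonneg).mp this)
  refine ⟨φ, fun p p' => ?_⟩
  rw [hφ, hφ]
  exact cf p p'

end Pool.Agent.N479.SK
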