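import Pool.Agent.N479.SK.Real

set_option autoImplicit false

/-! # A triangle together with a point of its circle is Ramsey: induction on the colours -/

namespace Pool.Agent.N479.SK

open Finset Pool.Agent.N479.ER

lemma eq_of_sq {ι : Type} [Fintype ι] {u v : ι → ℝ} (h : sq u v = 0) : u = v := by
  unfold ER.sq at h
  rw [Finset.sum_eq_zero_iff_of_nonneg fun x _ => sq_nonneg _] at h
  funext x
  have := h x (Finset.mem_univ x)
  nlinarith [pow_eq_zero_iff (n := 2) (by norm_num) |>.mp this]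

theorem main {κ : Type} [Finite κ] [Nonempty κ] (l : ℝ) (hl : 0 < l) (P Q : ℝ) (hQ : 0 < Q) (hPQ : Q < 2 * P)
    (hII : II l P P Q = 0) (m : ℕ) :
    ∃ (ι : Type) (_ : Fintype ι) (_ : Nonempty ι) (W : Finset (ι → ℝ)) (R : ℝ),
      W.Nonempty ∧ (∀ w ∈ W, sq w 0 = R) ∧
      ∀ c : (ι → ℝ) → κ, (c '' (W : Set (ι → ℝ))).ncard ≤ m →
        ∃ f : Fin 3 → ι → ℝ, (∀ i, f i ∈ W) ∧ ctr l (f 0) (f 1) (f 2) ∈ W ∧
          sq (f 0) (f 1) = P ∧ sq (f 0) (f 2) = P ∧ sq (f 1) (f 2) = Q ∧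
          ∀ i, c (f i) = c (ctr l (f 0) (f 1) (f 2)) := by
  classical
  induction m with
  | zero =>
    refine ⟨Unit, inferInstance, inferInstance, {0}, 0, Finset.singleton_nonempty _, ?_, ?_⟩
    · intro w hw
      rw [Finset.mem_singleton.mp hw, sq_self]
    · intro c hc
      exfalso
      rw [Finset.coe_singleton, Set.image_singleton, Set.ncard_singleton] at hc
      omega
  | succ m ih =>
    obtain ⟨ι₀, i₀, n₀, W₀, R₀, hW₀, hR₀, H₀⟩ := ih
    have hY : Nonempty ↥W₀ := hW₀.to_subtype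
    obtain ⟨D, hD, hD1, hD2⟩ := realize (fun p : ↥W₀ => (p : ι₀ → ℝ)) R₀
      (fun p => by
        have := hR₀ p p.2
        simpa [ER.sq] using this) l hl P Q hQ hPQ
    obtain ⟨ι₁, i₁, n₁, W₁, R₁, hR₁, H₁⟩ := hD.sphere κ
    let q : (↥W₀ × Fin 3 → ι₁ → ℝ) → ↥W₀ → ι₁ → ℝ :=
      fun f p => ctr l (f (p, 0)) (f (p, 1)) (f (p, 2))
    let Ok : (↥W₀ × Fin 3 → ↥W₁) → Prop := fun f => ∀ p,
      sq (f (p, 0) : ι₁ → ℝ) (f (p, 1)) = P ∧ sq (f (p, 0) : ι₁ → ℝ) (f (p, 2)) = P ∧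
      sq (f (p, 1) : ι₁ → ℝ) (f (p, 2)) = Q
    let W : Finset (ι₁ → ℝ) := W₁ ∪ (Finset.univ.filter Ok).biUnion
      (fun f => Finset.univ.image (q fun b => (f b : ι₁ → ℝ)))
    obtain ⟨p₀⟩ := hY
    refine ⟨ι₁, i₁, n₁, W, R₁, ?_, ?_, fun c hc => ?_⟩
    · obtain ⟨f, mf, -, -⟩ := H₁ (fun _ => Classical.arbitrary κ)
      exact ⟨f (p₀, 0), Finset.mem_union_left _ (mf _)⟩
    · intro w hw
      rcases Finset.mem_union.mp hw with h | h
      · exact hR₁ w h
      · obtain ⟨f, hf, h⟩ := Finset.mem_biUnion.mp h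
        obtain ⟨p, -, rfl⟩ := Finset.mem_image.mp h
        obtain ⟨h1, h2, h3⟩ := (Finset.mem_filter.mp hf).2 p
        simp only [q]
        rw [sq_ctr_pt, h1, h2, h3, hR₁ _ (f (p, 0)).2, hR₁ _ (f (p, 1)).2, hR₁ _ (f (p, 2)).2]
        unfold II at hII
        linarith
    · obtain ⟨f, mf, df, cf⟩ := H₁ c
      have hOk : Ok (fun b => ⟨f b, mf b⟩) := by
        intro p
        obtain ⟨h1, h2, h3⟩ := hD1 p
        exact ⟨(df _ _).trans h1, (df _ _).trans h2, (df _ _).trans h3⟩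
      have hqW : ∀ p, q f p ∈ W := by
        intro p
        refine Finset.mem_union_right _ (Finset.mem_biUnion.mpr ⟨fun b => ⟨f b, mf b⟩,
          Finset.mem_filter.mpr ⟨Finset.mem_univ _, hOk⟩, ?_⟩)
        exact Finset.mem_image_of_mem _ (Finset.mem_univ p)
      have hfW : ∀ b, f b ∈ W := fun b => Finset.mem_union_left _ (mf b)
      have hq2 : ∀ p p', sq (q f p) (q f p') = sq (p : ι₀ → ℝ) p' := by
        intro p p'
        rw [← hD2 p p']
        simp only [q]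
        have h1 := sq_ctr_ctr l (fun i => f (p, i)) (fun i => f (p', i))
        simp only [df] at h1
        rw [(hD1 p).1, (hD1 p).2.1, (hD1 p).2.2, (hD1 p').1, (hD1 p').2.1, (hD1 p').2.2] at h1
        exact h1
      set s := c (f (p₀, 0)) with hs
      have hcf : ∀ b, c (f b) = s := fun b => cf b _
      by_cases hex : ∃ p, c (q f p) = s
      · obtain ⟨p, hp⟩ := hex
        refine ⟨fun i => f (p, i), fun i => hfW _, hqW p, (hOk p).1, (hOk p).2.1, (hOk p).2.2,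
          fun i => ?_⟩
        rw [hcf]
        exact hp.symm
      · push Not at hex
        let c₀ : (ι₀ → ℝ) → κ := fun v => if h : v ∈ W₀ then c (q f ⟨v, h⟩) else s
        have hc₀ : ∀ p : ↥W₀, c₀ p = c (q f p) := by
          intro p
          simp only [c₀]
          rw [dif_pos p.2]
        have hsub : c₀ '' (W₀ : Set (ι₀ → ℝ)) ⊆ (c '' (W : Set (ι₁ → ℝ))) \ {s} := by
          rintro _ ⟨v, hv, rfl⟩
          rw [hc₀ ⟨v, hv⟩]
          exact ⟨⟨_, hqW _, rfl⟩, hex _⟩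
        have hsW : s ∈ c '' (W : Set (ι₁ → ℝ)) := ⟨_, hfW (p₀, 0), rfl⟩
        have hcard : (c₀ '' (W₀ : Set (ι₀ → ℝ))).ncard ≤ m := by
          refine (Set.ncard_le_ncard hsub (Set.toFinite _)).trans ?_
          have h1 := Set.ncard_sdiff_singleton_add_one (s := c '' (W : Set (ι₁ → ℝ))) (a := s)
            hsW (Set.toFinite _)
          omega
        obtain ⟨g, mg, mg', g1, g2, g3, cg⟩ := H₀ c₀ hcard
        have e : ctr l (q f ⟨g 0, mg 0⟩) (q f ⟨g 1, mg 1⟩) (q f ⟨g 2, mg 2⟩) =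
            q f ⟨ctr l (g 0) (g 1) (g 2), mg'⟩ := by
          apply eq_of_sq
          rw [sq_ctr_pt, hq2, hq2, hq2, hq2, hq2, hq2, ← sq_ctr_pt, sq_self]
        refine ⟨fun i => q f ⟨g i, mg i⟩, fun i => hqW _, ?_, ?_, ?_, ?_, fun i => ?_⟩
        · rw [e]
          exact hqW _
        · rw [hq2]
          exact g1
        · rw [hq2]
          exact g2
        · rw [hq2]
          exact g3
        · have h1 := cg i
          rw [hc₀ ⟨g i, mg i⟩, hc₀ ⟨ctr l (g 0) (g 1) (g 2), mg'⟩] at h1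
          rw [e]
          exact h1

end Pool.Agent.N479.SK
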