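import Pool.Agent.N479.SK.Sample
import Pool.Agent.N479.SK.Gadget

set_option autoImplicit false

/-! # Triangles attached to the points of a spherical set -/

namespace Pool.Agent.N479.SK

open Finset Pool.Agent.N479.ER

lemma telescope (φ : ℝ → ℝ) (x h k : ℝ) (m : ℕ) (hm : 0 < m) :
    ∑ r : Fin m, (φ (x + (r : ℕ) * (k / m) + h + k / m) - φ (x + (r : ℕ) * (k / m) + h)
      - φ (x + (r : ℕ) * (k / m) + k / m) + φ (x + (r : ℕ) * (k / m))) =
    φ (x + k + h) - φ (x + k) - φ (x + h) + φ x := by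
  let G : ℕ → ℝ := fun r => φ (x + r * (k / m) + h) - φ (x + r * (k / m))
  have h1 : ∀ r : Fin m, (φ (x + (r : ℕ) * (k / m) + h + k / m) - φ (x + (r : ℕ) * (k / m) + h)
      - φ (x + (r : ℕ) * (k / m) + k / m) + φ (x + (r : ℕ) * (k / m))) =
      G ((r : ℕ) + 1) - G (r : ℕ) := by
    intro r
    simp only [G]
    push_cast
    rw [show x + ((r : ℕ) : ℝ) * (k / m) + h + k / m = x + (((r : ℕ) : ℝ) + 1) * (k / m) + h by ring,
      show x + ((r : ℕ) : ℝ) * (k / m) + k / m = x + (((r : ℕ) : ℝ) + 1) * (k / m) by ring]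
    ring
  rw [Finset.sum_congr rfl fun r _ => h1 r, Fin.sum_univ_eq_sum_range (fun r => G (r + 1) - G r),
    Finset.sum_range_sub]
  have hm' : (m : ℝ) ≠ 0 := by exact_mod_cast hm.ne'
  simp only [G]
  rw [mul_div_cancel₀ k hm']
  simp
  ring

lemma cell_cost (h k : ℝ) (m : ℕ) (hk : 0 ≤ k) (hh : |h| ≤ k) (h0 : h ≠ 0)
    (hm : m = ⌈k / |h|⌉₊) : (m : ℝ) * (h ^ 2 + (k / m) ^ 2) ≤ 3 * (|h| * k) := by
  have ha : 0 < |h| := abs_pos.mpr h0
  have hk0 : 0 < k := lt_of_lt_of_le ha hh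
  have hm1 : k / |h| ≤ m := hm ▸ Nat.le_ceil _
  have hm2 : (m : ℝ) < k / |h| + 1 := by
    rw [hm]
    exact Nat.ceil_lt_add_one (by positivity)
  have hm0 : (0 : ℝ) < m := lt_of_lt_of_le (by positivity) hm1
  have e1 : (m : ℝ) * h ^ 2 ≤ 2 * (|h| * k) := by
    have h1 : (m : ℝ) * h ^ 2 ≤ (k / |h| + 1) * h ^ 2 :=
      mul_le_mul_of_nonneg_right hm2.le (sq_nonneg h)
    have h2 : (k / |h| + 1) * h ^ 2 = k * |h| + |h| * |h| := by
      rw [← sq_abs h]
      field_simp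
    nlinarith
  have e2 : (m : ℝ) * (k / m) ^ 2 ≤ |h| * k := by
    have h1 : (m : ℝ) * (k / m) ^ 2 = k * (k / m) := by
      field_simp
    have h2 : k / m ≤ |h| := by
      rw [div_le_iff₀ hm0]
      rw [div_le_iff₀ ha] at hm1
      linarith
    rw [h1]
    nlinarith
  linarith [mul_add (m : ℝ) (h ^ 2) ((k / m) ^ 2)]

theorem realize {ι : Type} [Fintype ι] [Nonempty ι] {Y : Type} [Finite Y] [Nonempty Y]
    (y : Y → ι → ℝ) (R : ℝ) (hR : ∀ p, ∑ i, y p i ^ 2 = R) (l : ℝ) (hl : 0 < l) (P Q : ℝ)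
    (hQ : 0 < Q) (hPQ : Q < 2 * P) :
    ∃ D : Y × Fin 3 → Y × Fin 3 → ℝ, GoodE D ∧
      (∀ p, D (p, 0) (p, 1) = P ∧ D (p, 0) (p, 2) = P ∧ D (p, 1) (p, 2) = Q) ∧
      ∀ p p', QQ l (fun i j => D (p, i) (p', j)) (II l P P Q) (II l P P Q) = sq (y p) (y p') := by
  classical
  have := Fintype.ofFinite Y
  obtain ⟨p₀⟩ := ‹Nonempty Y›
  let nY : ℝ := Fintype.card Y
  have hnY : 0 ≤ nY := by positivity
  let μ : ℝ := min Q (2 * P - Q)
  have hμ : 0 < μ := lt_min hQ (by linarith)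
  let ε : ℝ := l ^ 2 * μ / (9 * nY + 2)
  have hε : 0 < ε := by positivity
  obtain ⟨J, iJ, g, t, c, hc, hiso, hlaw, ht0, herr⟩ := sample y R hR ε hε
  let z : Y → J → ℝ := fun p j => ∑ i, g j i * y p i
  let h : Y → J → ℝ := fun p j => t p j - |z p j|
  let k : Y → J → ℝ := fun p j => t p j + |z p j|
  have hk0 : ∀ p j, 0 ≤ k p j := fun p j => add_nonneg (ht0 p j) (abs_nonneg _)
  have hhk : ∀ p j, |h p j| ≤ k p j := by
    intro p j
    have h1 := ht0 p j
    have h2 := abs_nonneg (z p j)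
    simp only [h, k]
    rw [abs_le]
    constructor <;> linarith
  have hhk' : ∀ p j, h p j * k p j = (t p j) ^ 2 - (z p j) ^ 2 := by
    intro p j
    simp only [h, k]
    rw [← sq_abs (z p j)]
    ring
  let m : Y → J → ℕ := fun p j => if h p j = 0 then 0 else ⌈k p j / |h p j|⌉₊
  have hm0 : ∀ p j, h p j = 0 → m p j = 0 := fun p j h0 => if_pos h0
  have hm1 : ∀ p j, h p j ≠ 0 → m p j = ⌈k p j / |h p j|⌉₊ := fun p j h0 => if_neg h0
  have hm2 : ∀ p j, h p j ≠ 0 → 0 < m p j := by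
    intro p j h0
    rw [hm1 p j h0]
    have := abs_pos.mpr h0
    exact Nat.ceil_pos.mpr (div_pos (lt_of_lt_of_le this (hhk p j)) this)
  let U := Σ q : Y × J, Fin (m q.1 q.2)
  let ow : U → Y := fun u => u.1.1
  let xu : U → ℝ := fun u => - t u.1.1 u.1.2 + ((u.2 : ℕ) : ℝ) * (k u.1.1 u.1.2 / m u.1.1 u.1.2)
  let hu : U → ℝ := fun u => h u.1.1 u.1.2
  let ku : U → ℝ := fun u => k u.1.1 u.1.2 / m u.1.1 u.1.2
  let F : Y × Fin 3 → (J × Bool) ⊕ (U × Fin 6) → ℝ := row l z ow xu hu ku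
  -- sums over the units of one point
  have hown : ∀ (f : U → ℝ) (p : Y), ∑ u, (if ow u = p then f u else 0) =
      ∑ j, ∑ r : Fin (m p j), f ⟨(p, j), r⟩ := by
    intro f p
    rw [Fintype.sum_sigma, Fintype.sum_prod_type, Finset.sum_eq_single p]
    · refine Finset.sum_congr rfl fun j _ => Finset.sum_congr rfl fun r _ => ?_
      exact if_pos rfl
    · intro p' _ hp'
      refine Finset.sum_eq_zero fun j _ => Finset.sum_eq_zero fun r _ => ?_
      exact if_neg hp'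
    · intro hh
      exact absurd (Finset.mem_univ _) hh
  -- the laws
  have habs : ∀ (φ : ℝ → ℝ) (s : ℝ), φ |s| + φ (-|s|) = φ s + φ (-s) := by
    intro φ s
    rcases abs_choice s with h1 | h1
    · rw [h1]
    · rw [h1, neg_neg, add_comm]
  have hF : ∀ (φ : ℝ → ℝ) (p : Y) (i : Fin 3), ∑ ω, φ (F (p, i) ω) =
      ∑ j, (φ (t p j) + φ (- t p j)) +
      ∑ u, (2 * φ (xu u) + φ (xu u + hu u) + φ (xu u + ku u) + φ (xu u + hu u / l)
        + φ (xu u + ku u / l)) := by
    intro φ p i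
    simp only [F]
    rw [row_law, hown]
    have h1 : ∀ j, ∑ r : Fin (m p j), (φ (xu ⟨(p, j), r⟩ + hu ⟨(p, j), r⟩ + ku ⟨(p, j), r⟩)
        - φ (xu ⟨(p, j), r⟩ + hu ⟨(p, j), r⟩) - φ (xu ⟨(p, j), r⟩ + ku ⟨(p, j), r⟩)
        + φ (xu ⟨(p, j), r⟩)) = (φ (t p j) + φ (- t p j)) - (φ (z p j) + φ (- z p j)) := by
      intro j
      by_cases h0 : h p j = 0
      · have h2 : m p j = 0 := hm0 p j h0
        have h3 : IsEmpty (Fin (m p j)) := by rw [h2]; infer_instance
        have h4 : t p j = |z p j| := by simp only [h] at h0; linarith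
        rw [Finset.univ_eq_empty, Finset.sum_empty, h4, habs, sub_self]
      · have h2 := telescope φ (- t p j) (h p j) (k p j) (m p j) (hm2 p j h0)
        simp only [xu, hu, ku]
        rw [h2, ← habs φ (z p j)]
        rw [show - t p j + k p j + h p j = t p j by simp only [h, k]; ring,
          show - t p j + k p j = |z p j| by simp only [k]; ring,
          show - t p j + h p j = - |z p j| by simp only [h]; ring]
        ring
    rw [Finset.sum_congr rfl fun j _ => h1 j, Finset.sum_sub_distrib]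
    ring
  have hF' : ∀ (φ : ℝ → ℝ) (b b' : Y × Fin 3), ∑ ω, φ (F b ω) = ∑ ω, φ (F b' ω) := by
    rintro φ ⟨p, i⟩ ⟨p', i'⟩
    rw [hF, hF, hlaw (fun s => φ s + φ (-s)) p p']
  have hgood : GoodE (fun b b' => sq (F b) (F b')) := GoodE.words F hF'
  -- the metric
  let E : ℝ := ∑ u, ge l (hu u) (ku u)
  let δ : ℝ := 2 / l ^ 2 * ((∑ j, (t p₀ j) ^ 2) - c * R)
  have hδ : ∀ p, ∑ u, (if ow u = p then 2 * (hu u / l) * (ku u / l) else 0) = δ := by
    intro p
    rw [hown]
    have h1 : ∀ j, ∑ r : Fin (m p j), 2 * (hu ⟨(p, j), r⟩ / l) * (ku ⟨(p, j), r⟩ / l) =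
        2 / l ^ 2 * ((t p j) ^ 2 - (z p j) ^ 2) := by
      intro j
      rw [← hhk']
      simp only [hu, ku]
      rw [Finset.sum_const, Finset.card_univ, Fintype.card_fin, nsmul_eq_mul]
      by_cases h0 : h p j = 0
      · rw [h0]
        simp
      · have h2 : (m p j : ℝ) ≠ 0 := by exact_mod_cast (hm2 p j h0).ne'
        field_simp
    rw [Finset.sum_congr rfl fun j _ => h1 j, ← Finset.mul_sum, Finset.sum_sub_distrib]
    simp only [δ]
    rw [hlaw (fun s => s ^ 2) p p₀]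
    congr 2
    simp only [z]
    rw [hiso (y p), hR p]
  have hm := fun p => row_m l z ow xu hu ku p
  simp only [hδ] at hm
  -- the size of the metric
  have herr' : ∀ p, ∑ j, |(t p j) ^ 2 - (z p j) ^ 2| ≤ ε * c := herr
  have hE0 : 0 ≤ E := Finset.sum_nonneg fun u _ => ge_nonneg _ _ _
  have hE1 : E ≤ 9 / l ^ 2 * (nY * (ε * c)) := by
    simp only [E]
    rw [Fintype.sum_sigma, Fintype.sum_prod_type]
    have h1 : ∀ p j, ∑ r : Fin (m p j), ge l (hu ⟨(p, j), r⟩) (ku ⟨(p, j), r⟩) ≤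
        9 / l ^ 2 * |(t p j) ^ 2 - (z p j) ^ 2| := by
      intro p j
      rw [← hhk']
      simp only [hu, ku]
      rw [Finset.sum_const, Finset.card_univ, Fintype.card_fin, nsmul_eq_mul]
      by_cases h0 : h p j = 0
      · rw [hm0 p j h0]
        simp [h0]
      · have h2 := cell_cost (h p j) (k p j) (m p j) (hk0 p j) (hhk p j) h0 (hm1 p j h0)
        have h3 := ge_le l (h p j) (k p j / m p j)
        have h4 : (0 : ℝ) ≤ m p j := by positivity
        calc (m p j : ℝ) * ge l (h p j) (k p j / m p j)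
            ≤ m p j * (3 / l ^ 2 * ((h p j) ^ 2 + (k p j / m p j) ^ 2)) :=
              mul_le_mul_of_nonneg_left h3 h4
          _ = 3 / l ^ 2 * (m p j * ((h p j) ^ 2 + (k p j / m p j) ^ 2)) := by ring
          _ ≤ 3 / l ^ 2 * (3 * (|h p j| * k p j)) :=
              mul_le_mul_of_nonneg_left h2 (by positivity)
          _ = 9 / l ^ 2 * |h p j * k p j| := by
              rw [abs_mul, abs_of_nonneg (hk0 p j)]
              ring
    have h2 : ∀ p, ∑ j, ∑ r : Fin (m p j), ge l (hu ⟨(p, j), r⟩) (ku ⟨(p, j), r⟩) ≤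
        9 / l ^ 2 * (ε * c) := by
      intro p
      refine (Finset.sum_le_sum fun j _ => h1 p j).trans ?_
      rw [← Finset.mul_sum]
      exact mul_le_mul_of_nonneg_left (herr' p) (by positivity)
    refine (Finset.sum_le_sum fun p _ => h2 p).trans (le_of_eq ?_)
    rw [Finset.sum_const, Finset.card_univ, nsmul_eq_mul]
    simp only [nY]
    ring
  have hδ1 : |δ| ≤ 2 / l ^ 2 * (ε * c) := by
    have h1 : δ = 2 / l ^ 2 * ∑ j, ((t p₀ j) ^ 2 - (z p₀ j) ^ 2) := by
      simp only [δ]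
      rw [Finset.sum_sub_distrib]
      congr 2
      simp only [z]
      rw [hiso (y p₀), hR p₀]
    rw [h1, abs_mul, abs_of_nonneg (by positivity : (0 : ℝ) ≤ 2 / l ^ 2)]
    refine mul_le_mul_of_nonneg_left ?_ (by positivity)
    exact (Finset.abs_sum_le_sum_abs _ _).trans (herr' p₀)
  have hsum : E + |δ| ≤ c * μ := by
    have h1 : E + |δ| ≤ 9 / l ^ 2 * (nY * (ε * c)) + 2 / l ^ 2 * (ε * c) := add_le_add hE1 hδ1
    refine h1.trans (le_of_eq ?_)
    simp only [ε]
    have : 9 * nY + 2 ≠ 0 := by positivity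
    field_simp
  have hμ1 : μ ≤ Q := min_le_left _ _
  have hμ2 : μ ≤ 2 * P - Q := min_le_right _ _
  have hδa := le_abs_self δ
  have hδb := neg_abs_le δ
  let E' : ℝ := 1 / (2 * c) * E
  let δ' : ℝ := 1 / (2 * c) * δ
  have hE' : E' + |δ'| ≤ μ / 2 := by
    simp only [E', δ']
    rw [abs_mul, abs_of_pos (by positivity : (0 : ℝ) < 1 / (2 * c)), ← mul_add]
    calc 1 / (2 * c) * (E + |δ|) ≤ 1 / (2 * c) * (c * μ) :=
          mul_le_mul_of_nonneg_left hsum (by positivity)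
      _ = μ / 2 := by field_simp
  have hE'0 : 0 ≤ E' := by positivity
  have hδa' := le_abs_self δ'
  have hδb' := neg_abs_le δ'
  let w₁ : ℝ := (Q - E' - δ') / 2
  let w₀ : ℝ := P - E' - w₁
  have hw₁ : 0 ≤ w₁ := by
    simp only [w₁]
    linarith
  have hw₀ : 0 ≤ w₀ := by
    simp only [w₀, w₁]
    linarith
  let W : Fin 3 → Fin 3 → ℝ := fun i j => (if (i = 0 ↔ j = 0) then 0 else w₀) +
    ((if (i = 1 ↔ j = 1) then 0 else w₁) + (if (i = 2 ↔ j = 2) then 0 else w₁))
  have hgoodW : GoodE (fun b b' : Y × Fin 3 => W b.2 b'.2) :=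
    (GoodE.cut (fun b : Y × Fin 3 => b.2 = 0) hw₀).add
      ((GoodE.cut (fun b : Y × Fin 3 => b.2 = 1) hw₁).add
        (GoodE.cut (fun b : Y × Fin 3 => b.2 = 2) hw₁))
  have hPe : P = 1 / (2 * c) * E + (w₀ + w₁) := by
    simp only [w₀]
    change P = E' + (P - E' - w₁ + w₁)
    ring
  have hQe : Q = 1 / (2 * c) * (E + δ) + (w₁ + w₁) := by
    rw [mul_add]
    change Q = E' + δ' + (w₁ + w₁)
    simp only [w₁]
    ring
  refine ⟨fun b b' => 1 / (2 * c) * sq (F b) (F b') + W b.2 b'.2,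
    (hgood.smul (by positivity)).add hgoodW, fun p => ⟨?_, ?_, ?_⟩, fun p p' => ?_⟩
  · have := (hm p).1
    simp only [F]
    rw [this, hPe]
    simp [W, E]
  · have := (hm p).2.1
    simp only [F]
    rw [this, hPe]
    simp [W, E]
  · have := (hm p).2.2
    simp only [F]
    rw [this, hQe]
    simp [W, E]
  · have h1 := sq_ctr_ctr l (fun i => F (p, i)) (fun i => F (p', i))
    have h2 := row_Z l hl.ne' z ow xu hu ku p p'
    have h3 : sq (ctr l (F (p, 0)) (F (p, 1)) (F (p, 2))) (ctr l (F (p', 0)) (F (p', 1)) (F (p', 2)))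
        = 2 * (c * sq (y p) (y p')) := by
      rw [show sq (ctr l (F (p, 0)) (F (p, 1)) (F (p, 2))) (ctr l (F (p', 0)) (F (p', 1)) (F (p', 2)))
        = 2 * ∑ j, (z p j - z p' j) ^ 2 from h2]
      congr 1
      have h4 := hiso (fun i => y p i - y p' i)
      unfold ER.sq
      rw [← h4]
      refine Finset.sum_congr rfl fun j _ => ?_
      simp only [z]
      rw [← Finset.sum_sub_distrib]
      congr 1
      exact Finset.sum_congr rfl fun i _ => by ring
    have h5 := (hm p).1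
    have h6 := (hm p).2.1
    have h7 := (hm p).2.2
    have h5' := (hm p').1
    have h6' := (hm p').2.1
    have h7' := (hm p').2.2
    simp only [h3] at h1
    change 2 * (c * sq (y p) (y p')) = QQ l (fun i j => sq (F (p, i)) (F (p', j)))
      (II l (sq (F (p, 0)) (F (p, 1))) (sq (F (p, 0)) (F (p, 2))) (sq (F (p, 1)) (F (p, 2))))
      (II l (sq (F (p', 0)) (F (p', 1))) (sq (F (p', 0)) (F (p', 2))) (sq (F (p', 1)) (F (p', 2)))) at h1
    simp only [F] at h1
    rw [h5, h6, h7, h5', h6', h7'] at h1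
    have hcc : c ≠ 0 := hc.ne'
    have h8 : sq (y p) (y p') = 1 / (2 * c) * QQ l (fun i j => sq (F (p, i)) (F (p', j)))
        (II l E E (E + δ)) (II l E E (E + δ)) := by
      have : QQ l (fun i j => sq (F (p, i)) (F (p', j)))
        (II l E E (E + δ)) (II l E E (E + δ)) = 2 * (c * sq (y p) (y p')) := h1.symm
      rw [this]
      field_simp
    rw [h8]
    rw [hPe, hQe]
    unfold QQ II
    simp only [W]
    simp
    ring

end Pool.Agent.N479.SK
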