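import Pool.Agent.N479.SK.Equi

set_option autoImplicit false

/-! # Isotropic samples in which finitely many points of a sphere have nearly the same law -/

namespace Pool.Agent.N479.SK

open Finset MeasureTheory

section iso

variable {ι : Type} [Fintype ι] [DecidableEq ι]

lemma unit_sq (u : ℤˣ) : (((u : ℤ) : ℝ)) * ((u : ℤ) : ℝ) = 1 := by
  rcases Int.units_eq_one_or u with h | h <;> simp [h]

lemma sign_cross (i k : ι) (h : i ≠ k) :
    ∑ e : ι → ℤˣ, (((e i : ℤ) : ℝ)) * ((e k : ℤ) : ℝ) = 0 := by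
  have h1 := Equiv.sum_comp (Equiv.mulRight (Pi.mulSingle i (-1 : ℤˣ)))
    (fun e : ι → ℤˣ => (((e i : ℤ) : ℝ)) * ((e k : ℤ) : ℝ))
  have h2 : ∀ e : ι → ℤˣ, ((((Equiv.mulRight (Pi.mulSingle i (-1 : ℤˣ)) e) i : ℤ) : ℝ)) *
      (((Equiv.mulRight (Pi.mulSingle i (-1 : ℤˣ)) e) k : ℤ) : ℝ) =
      - ((((e i : ℤ) : ℝ)) * ((e k : ℤ) : ℝ)) := by
    intro e
    simp [Pi.mulSingle_eq_of_ne (Ne.symm h)]
  simp only [h2, Finset.sum_neg_distrib] at h1
  linarith

lemma signs (a : ι → ℝ) : ∑ e : ι → ℤˣ, (∑ k, ((e k : ℤ) : ℝ) * a k) ^ 2 =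
    Fintype.card (ι → ℤˣ) * ∑ k, a k ^ 2 := by
  have h1 : ∀ e : ι → ℤˣ, (∑ k, ((e k : ℤ) : ℝ) * a k) ^ 2 =
      ∑ i, ∑ k, (((e i : ℤ) : ℝ) * ((e k : ℤ) : ℝ)) * (a i * a k) := by
    intro e
    rw [sq, Finset.sum_mul_sum]
    refine Finset.sum_congr rfl fun i _ => Finset.sum_congr rfl fun k _ => by ring
  simp_rw [h1]
  rw [Finset.sum_comm]
  rw [Finset.mul_sum]
  refine Finset.sum_congr rfl fun i _ => ?_
  rw [Finset.sum_comm]
  rw [Finset.sum_eq_single i]
  · simp_rw [unit_sq]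
    rw [Finset.sum_const, Finset.card_univ, nsmul_eq_mul]
    ring
  · intro k _ hk
    rw [← Finset.sum_mul, sign_cross i k hk.symm, zero_mul]
  · intro h
    exact absurd (Finset.mem_univ _) h

lemma perm_const (f : ι → ℝ) (i k : ι) :
    ∑ s : Equiv.Perm ι, f (s i) = ∑ s : Equiv.Perm ι, f (s k) := by
  rw [← Equiv.sum_comp (Equiv.mulRight (Equiv.swap i k))]
  refine Finset.sum_congr rfl fun s _ => ?_
  simp

lemma perm_sum (f : ι → ℝ) (i : ι) :
    Fintype.card ι * ∑ s : Equiv.Perm ι, f (s i) = Fintype.card (Equiv.Perm ι) * ∑ k, f k := by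
  have h1 : ∑ k : ι, ∑ s : Equiv.Perm ι, f (s k) = Fintype.card ι * ∑ s : Equiv.Perm ι, f (s i) := by
    rw [Finset.sum_congr rfl fun k _ => perm_const f k i, Finset.sum_const, Finset.card_univ,
      nsmul_eq_mul]
  rw [← h1, Finset.sum_comm, Finset.sum_congr rfl fun s _ => Equiv.sum_comp s f, Finset.sum_const,
    Finset.card_univ, nsmul_eq_mul]

lemma iso (v x : ι → ℝ) :
    Fintype.card ι * ∑ π : (ι → ℤˣ) × Equiv.Perm ι, (∑ k, ((π.1 k : ℤ) : ℝ) * v (π.2 k) * x k) ^ 2 =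
      Fintype.card ((ι → ℤˣ) × Equiv.Perm ι) * ((∑ k, v k ^ 2) * ∑ k, x k ^ 2) := by
  rw [Fintype.sum_prod_type, Finset.sum_comm]
  have h1 : ∀ s : Equiv.Perm ι, ∑ e : ι → ℤˣ, (∑ k, ((e k : ℤ) : ℝ) * v (s k) * x k) ^ 2 =
      Fintype.card (ι → ℤˣ) * ∑ k, (v (s k)) ^ 2 * x k ^ 2 := by
    intro s
    have := signs (fun k => v (s k) * x k)
    rw [← Finset.sum_congr rfl fun k _ => mul_pow (v (s k)) (x k) 2, ← this]
    refine Finset.sum_congr rfl fun e _ => ?_
    congr 1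
    exact Finset.sum_congr rfl fun k _ => by ring
  rw [Finset.sum_congr rfl fun s _ => h1 s, ← Finset.mul_sum, Finset.sum_comm]
  have h2 : ∀ k, ∑ s : Equiv.Perm ι, (v (s k)) ^ 2 * x k ^ 2 =
      (∑ s : Equiv.Perm ι, (v (s k)) ^ 2) * x k ^ 2 := fun k => by rw [Finset.sum_mul]
  rw [Finset.sum_congr rfl fun k _ => h2 k, Fintype.card_prod]
  have h3 : ∀ k, (Fintype.card ι : ℝ) * ((∑ s : Equiv.Perm ι, (v (s k)) ^ 2) * x k ^ 2) =
      (Fintype.card (Equiv.Perm ι) * ∑ k, v k ^ 2) * x k ^ 2 := by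
    intro k
    rw [← mul_assoc, perm_sum (fun i => v i ^ 2) k]
  have h4 : (Fintype.card ι : ℝ) * ∑ k, ((∑ s : Equiv.Perm ι, (v (s k)) ^ 2) * x k ^ 2) =
      (Fintype.card (Equiv.Perm ι) * ∑ k, v k ^ 2) * ∑ k, x k ^ 2 := by
    rw [Finset.mul_sum, Finset.sum_congr rfl fun k _ => h3 k, ← Finset.mul_sum]
  calc (Fintype.card ι : ℝ) * ((Fintype.card (ι → ℤˣ) : ℝ) *
        ∑ k, ((∑ s : Equiv.Perm ι, (v (s k)) ^ 2) * x k ^ 2))
      = (Fintype.card (ι → ℤˣ) : ℝ) * ((Fintype.card ι : ℝ) *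
        ∑ k, ((∑ s : Equiv.Perm ι, (v (s k)) ^ 2) * x k ^ 2)) := by ring
    _ = _ := by rw [h4]; push_cast; ring

end iso

/-- isotropic samples; `t p` are targets with the same law for all `p`, close to `|⟪g, y p⟫|` -/
theorem sample {ι : Type} [Fintype ι] [Nonempty ι] {Y : Type} [Finite Y] (y : Y → ι → ℝ) (R : ℝ)
    (hR : ∀ p, ∑ i, y p i ^ 2 = R) (ε : ℝ) (hε : 0 < ε) :
    ∃ (J : Type) (_ : Fintype J) (g : J → ι → ℝ) (t : Y → J → ℝ) (c : ℝ), 0 < c ∧
      (∀ x : ι → ℝ, ∑ j, (∑ i, g j i * x i) ^ 2 = c * ∑ i, x i ^ 2) ∧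
      (∀ (φ : ℝ → ℝ) (p p' : Y), ∑ j, φ (t p j) = ∑ j, φ (t p' j)) ∧
      (∀ p j, 0 ≤ t p j) ∧
      ∀ p, ∑ j, |(t p j) ^ 2 - (∑ i, g j i * y p i) ^ 2| ≤ ε * c := by
  classical
  have hR0 : 0 ≤ R ∨ IsEmpty Y := by
    rcases isEmpty_or_nonempty Y with h | ⟨⟨p⟩⟩
    · exact Or.inr h
    · left
      rw [← hR p]
      positivity
  have := Fintype.ofFinite Y
  let R' := max R 0
  have hR' : 0 ≤ R' := le_max_right _ _
  have hRle : R ≤ R' := le_max_left _ _
  let PP := (ι → ℤˣ) × Equiv.Perm ι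
  let d : ℝ := Fintype.card ι
  have hd : 0 < d := by
    simp only [d]
    exact_mod_cast Fintype.card_pos
  let w : ℕ := Fintype.card PP
  have hw : 0 < w := Fintype.card_pos
  have hw' : (0 : ℝ) < w := by exact_mod_cast hw
  -- the bins
  let Q : ℕ := ⌈8 * d / ε⌉₊ + 1
  have hQ : 8 * d / ε ≤ Q := by
    have := Nat.le_ceil (8 * d / ε)
    simp only [Q]
    push_cast
    linarith
  have hQ0 : (0 : ℝ) < Q := by simp only [Q]; positivity
  let B : ℕ := ⌈Q * R'⌉₊
  let b : ℝ → Fin (B + 1) := fun s => ⟨min ⌊Q * s ^ 2⌋₊ B, by omega⟩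
  have hb : Measurable b := by
    have h1 : Measurable (fun s : ℝ => min ⌊(Q : ℝ) * s ^ 2⌋₊ B) := by
      have h2 : Measurable (fun s : ℝ => ⌊(Q : ℝ) * s ^ 2⌋₊) :=
        Nat.measurable_floor.comp (by fun_prop)
      exact h2.min measurable_const
    have h3 : b = (fun n : ℕ => (⟨min n B, by omega⟩ : Fin (B + 1))) ∘
        (fun s : ℝ => min ⌊(Q : ℝ) * s ^ 2⌋₊ B) := by
      funext s
      simp [b]
    rw [h3]
    exact (measurable_of_countable _).comp h1
  -- the directions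
  let a : PP × Y → EuclideanSpace ℝ ι := fun q => WithLp.toLp 2
    (fun k => ((q.1.1 (q.1.2.symm k) : ℤ) : ℝ) * y q.2 (q.1.2.symm k))
  have ha : ∀ q, ‖a q‖ ^ 2 = R := by
    intro q
    rw [EuclideanSpace.norm_sq_eq, ← hR q.2]
    simp only [a]
    rw [← Equiv.sum_comp q.1.2]
    refine Finset.sum_congr rfl fun k _ => ?_
    simp only [Equiv.symm_apply_apply, Real.norm_eq_abs, sq_abs]
    rw [mul_pow, sq, unit_sq, one_mul]
  have ha' : ∀ q q', ‖a q‖ = ‖a q'‖ := fun q q' =>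
    (sq_eq_sq₀ (norm_nonneg _) (norm_nonneg _)).mp (by rw [ha, ha])
  have hin : ∀ (v : EuclideanSpace ℝ ι) (q : PP × Y), inner ℝ v (a q) =
      ∑ k, ((q.1.1 k : ℤ) : ℝ) * v (q.1.2 k) * y q.2 k := by
    intro v q
    rw [PiLp.inner_apply, ← Equiv.sum_comp q.1.2]
    refine Finset.sum_congr rfl fun k _ => ?_
    simp only [a, RCLike.inner_apply, conj_trivial, Equiv.symm_apply_apply]
    ring
  obtain ⟨D, hD⟩ := equi a ha' b hb
  obtain ⟨N, hN⟩ := exists_nat_ge (8 * d * (R' * ((B + 1) * D)) / ε + 1)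
  obtain ⟨I, iI, v, hI, hv, hcnt⟩ := hD N
  let J := I × PP
  let g : J → ι → ℝ := fun j k => ((j.2.1 k : ℤ) : ℝ) * v j.1 (j.2.2 k)
  have hg : ∀ (j : J) (p : Y), ∑ k, g j k * y p k = inner ℝ (v j.1) (a (j.2, p)) := by
    intro j p
    rw [hin]
  let lab : Y → J → Fin (B + 1) := fun p j => b (inner ℝ (v j.1) (a (j.2, p)))
  have hlab : ∀ p p' l, (univ.filter fun j => lab p j = l).card ≤
      (univ.filter fun j => lab p' j = l).card + w * D := by
    have e : ∀ p l, (univ.filter fun j => lab p j = l).card =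
        ∑ π : PP, (univ.filter fun i => b (inner ℝ (v i) (a (π, p))) = l).card := by
      intro p l
      simp only [Finset.card_filter]
      rw [Fintype.sum_prod_type, Finset.sum_comm]
    intro p p' l
    rw [e, e]
    refine (Finset.sum_le_sum fun π _ => hcnt (π, p) (π, p') l).trans ?_
    rw [Finset.sum_add_distrib]
    simp [w]
  obtain ⟨T, hT1, hT2, hT3⟩ := targets lab (w * D) hlab
  let dec : Option (Fin (B + 1)) → ℝ := fun o => o.elim 0 (fun l => √((l : ℕ) / Q))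
  let s : ℝ := ∑ i, ‖v i‖ ^ 2
  have hs : (Fintype.card I : ℝ) / 4 ≤ s := by
    have h1 : ∀ i ∈ (univ : Finset I), (1 / 4 : ℝ) ≤ ‖v i‖ ^ 2 := by
      intro i _
      have := (hv i).1
      nlinarith
    have h2 := Finset.sum_le_sum h1
    simp only [Finset.sum_const, Finset.card_univ, nsmul_eq_mul] at h2
    simp only [s]
    linarith
  have hI1 : (N : ℝ) ≤ Fintype.card I := by exact_mod_cast hI
  have hN0 : (0 : ℝ) < N := by
    have : 0 ≤ 8 * d * (R' * ((B + 1) * D)) / ε := by positivity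
    linarith
  have hs0 : 0 < s := by linarith
  refine ⟨J, inferInstance, g, fun p j => dec (T p j), w / d * s, by positivity, ?_, ?_, ?_, ?_⟩
  · intro x
    rw [Fintype.sum_prod_type]
    have h1 : ∀ i : I, ∑ π : PP, (∑ k, g (i, π) k * x k) ^ 2 =
        w / d * (‖v i‖ ^ 2 * ∑ k, x k ^ 2) := by
      intro i
      have := iso (v i) x
      rw [EuclideanSpace.norm_sq_eq]
      simp only [g, Real.norm_eq_abs, sq_abs]
      have hd' : (Fintype.card ι : ℝ) ≠ 0 := hd.ne'
      simp only [w, d]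
      rw [div_mul_eq_mul_div, eq_div_iff hd', mul_comm]
      exact this
    rw [Finset.sum_congr rfl fun i _ => h1 i, ← Finset.mul_sum, ← Finset.sum_mul]
    ring
  · intro φ p p'
    exact hT2 (fun o => φ (dec o)) p p'
  · intro p j
    simp only [dec]
    cases T p j with
    | none => simp
    | some l => exact Real.sqrt_nonneg _
  · intro p
    have hz : ∀ j : J, (∑ k, g j k * y p k) ^ 2 ≤ R' := by
      intro j
      rw [hg]
      have h1 := abs_real_inner_le_norm (v j.1) (a (j.2, p))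
      have h2 : ‖v j.1‖ * ‖a (j.2, p)‖ ≤ ‖a (j.2, p)‖ := by
        have := (hv j.1).2
        have h3 := norm_nonneg (a (j.2, p))
        nlinarith
      have h3 : (inner ℝ (v j.1) (a (j.2, p)) : ℝ) ^ 2 ≤ ‖a (j.2, p)‖ ^ 2 := by
        rw [← sq_abs (inner ℝ (v j.1) (a (j.2, p)) : ℝ)]
        exact pow_le_pow_left₀ (abs_nonneg _) (h1.trans h2) 2
      rw [ha] at h3
      linarith
    have hterm : ∀ j : J, |(dec (T p j)) ^ 2 - (∑ k, g j k * y p k) ^ 2| ≤
        1 / Q + R' * (if T p j = none then 1 else 0) := by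
      intro j
      have hzj := hz j
      have hz0 : 0 ≤ (∑ k, g j k * y p k) ^ 2 := sq_nonneg _
      cases hTj : T p j with
      | none =>
        simp only [dec, Option.elim_none, if_true]
        rw [zero_pow (by norm_num), zero_sub, abs_neg, abs_of_nonneg hz0]
        have : (0 : ℝ) ≤ 1 / Q := by positivity
        linarith
      | some l =>
        simp only [dec, Option.elim_some, reduceCtorEq, if_false, mul_zero, add_zero]
        rw [Real.sq_sqrt (by positivity)]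
        have h1 : lab p j = l := hT1 p j l hTj
        have h2 : (l : ℕ) = ⌊(Q : ℝ) * (∑ k, g j k * y p k) ^ 2⌋₊ := by
          rw [← h1]
          simp only [lab, b]
          rw [← hg, min_eq_left]
          refine Nat.floor_le_of_le ?_
          refine le_trans ?_ (Nat.le_ceil _)
          exact mul_le_mul_of_nonneg_left hzj hQ0.le
        rw [h2]
        have h3 := Nat.floor_le (a := (Q : ℝ) * (∑ k, g j k * y p k) ^ 2) (by positivity)
        have h4 := Nat.lt_floor_add_one ((Q : ℝ) * (∑ k, g j k * y p k) ^ 2)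
        set F := (⌊(Q : ℝ) * (∑ k, g j k * y p k) ^ 2⌋₊ : ℝ)
        set z := (∑ k, g j k * y p k) ^ 2
        have h5 : F / Q - z = (F - Q * z) / Q := by field_simp
        rw [h5, abs_div, abs_of_pos hQ0]
        apply div_le_div_of_nonneg_right _ hQ0.le
        rw [abs_le]
        constructor <;> linarith
    refine (Finset.sum_le_sum fun j _ => hterm j).trans ?_
    rw [Finset.sum_add_distrib, ← Finset.mul_sum, Finset.sum_boole]
    simp only [Finset.sum_const, Finset.card_univ, nsmul_eq_mul]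
    have h1 : ((univ.filter fun j => T p j = none).card : ℝ) ≤ (B + 1) * (w * D) := by
      exact_mod_cast hT3 p
    have h2 : (Fintype.card J : ℝ) = Fintype.card I * w := by
      simp only [J, Fintype.card_prod, w]
      push_cast
      rfl
    rw [h2]
    -- first part
    have h3 : (Fintype.card I : ℝ) * w * (1 / Q) ≤ ε / 2 * (w / d * s) := by
      have h4 : 1 / (Q : ℝ) ≤ ε / (8 * d) := by
        rw [div_le_div_iff₀ hQ0 (by positivity)]
        rw [div_le_iff₀ hε] at hQ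
        linarith
      have h5 : (Fintype.card I : ℝ) * w * (1 / Q) ≤ (4 * s) * w * (ε / (8 * d)) := by
        apply mul_le_mul _ h4 (by positivity) (by positivity)
        exact mul_le_mul_of_nonneg_right (by linarith) hw'.le
      refine h5.trans (le_of_eq ?_)
      field_simp
      ring
    have h6 : R' * ((univ.filter fun j => T p j = none).card : ℝ) ≤ ε / 2 * (w / d * s) := by
      have h7 : R' * ((univ.filter fun j => T p j = none).card : ℝ) ≤ R' * ((B + 1) * (w * D)) :=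
        mul_le_mul_of_nonneg_left h1 hR'
      refine h7.trans ?_
      have h8 : 8 * d * (R' * ((B + 1) * D)) / ε ≤ 4 * s := by linarith
      rw [div_le_iff₀ hε] at h8
      have h9 : w / (8 * d) * (8 * d * (R' * ((B + 1) * D))) ≤ w / (8 * d) * (4 * s * ε) :=
        mul_le_mul_of_nonneg_left h8 (by positivity)
      calc R' * ((B + 1) * (w * D)) = w / (8 * d) * (8 * d * (R' * ((B + 1) * D))) := by
            field_simp
        _ ≤ w / (8 * d) * (4 * s * ε) := h9
        _ = ε / 2 * (w / d * s) := by field_simp; ring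
    linarith

end Pool.Agent.N479.SK
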